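import Mathlib

/-!
MP_16b0ee, project CJ: the closing argument (after Helper22, light imports).
-/

set_option autoImplicit false

namespace Pool.Agent.Helper86.CJ

/-- interchange of the finite sums -/
theorem double_fin {S : ℕ → ℕ → ℝ} {lam : ℕ → ℝ} {κ : ℝ}
    (hlam : ∀ i, 0 ≤ lam i)
    (h : ∀ i M : ℕ, ∑ m ∈ Finset.range M, ((m - i : ℕ) : ℝ) * S m i
      ≤ κ * ∑ m ∈ Finset.range i, ((i - m : ℕ) : ℝ) * S m i) (I : ℕ) :
    ∑ m ∈ Finset.range I, ∑ i ∈ Finset.range I, ((m - i : ℕ) : ℝ) * lam i * S m i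
      ≤ κ * ∑ m ∈ Finset.range I, ∑ i ∈ Finset.range I, ((i - m : ℕ) : ℝ) * lam i * S m i := by
  rw [Finset.sum_comm, Finset.sum_comm (f := fun m i => ((i - m : ℕ) : ℝ) * lam i * S m i),
    Finset.mul_sum]
  apply Finset.sum_le_sum
  intro i hi
  rw [Finset.mem_range] at hi
  have h1 := mul_le_mul_of_nonneg_left (h i I) (hlam i)
  have e1 : ∑ m ∈ Finset.range I, ((m - i : ℕ) : ℝ) * lam i * S m i
      = lam i * ∑ m ∈ Finset.range I, ((m - i : ℕ) : ℝ) * S m i := by
    rw [Finset.mul_sum]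
    apply Finset.sum_congr rfl
    intro m _; ring
  have e2 : ∑ m ∈ Finset.range I, ((i - m : ℕ) : ℝ) * lam i * S m i
      = lam i * ∑ m ∈ Finset.range i, ((i - m : ℕ) : ℝ) * S m i := by
    have hsub : Finset.range i ⊆ Finset.range I := by
      intro m hm
      rw [Finset.mem_range] at hm ⊢
      omega
    rw [← Finset.sum_subset hsub, Finset.mul_sum]
    · apply Finset.sum_congr rfl
      intro m _; ring
    · intro m _ hm
      rw [Finset.mem_range, not_lt] at hm
      have : i - m = 0 := by omega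
      rw [this]; simp
  rw [e1, e2]
  calc lam i * ∑ m ∈ Finset.range I, ((m - i : ℕ) : ℝ) * S m i
      ≤ lam i * (κ * ∑ m ∈ Finset.range i, ((i - m : ℕ) : ℝ) * S m i) := h1
    _ = _ := by ring

/-- recursive constants -/
noncomputable def Kc (C0 C1 : ℝ) : ℕ → ℝ
  | 0 => 0
  | n + 1 => C0 + C1 * Kc C0 C1 n

theorem Kc_nonneg {C0 C1 : ℝ} (h0 : 0 ≤ C0) (h1 : 0 ≤ C1) (n : ℕ) : 0 ≤ Kc C0 C1 n := by
  induction n with
  | zero => exact le_rfl
  | succ n ih =>
    show 0 ≤ C0 + C1 * Kc C0 C1 n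
    positivity

theorem closure_abs {P : ℕ → ℝ} {N : ℕ → ℕ → ℝ} {C0 C1 η : ℝ} (hP0 : ∀ m, 0 ≤ P m)
    (hC0 : 0 ≤ C0) (hC1 : 0 ≤ C1) (hη : 0 < η) (hη1 : η ≤ 1)
    (h : ∀ I, ∑ m ∈ Finset.range I, P m ≤ ∑ m ∈ Finset.range I, N m I)
    (hN0 : ∀ I, N 0 I ≤ C0) (hN1 : ∀ m, 1 ≤ m → ∀ I, N m I ≤ C1 * P m)
    (hlast : ∀ m, N m (m + 1) ≤ 0) {m0 : ℕ}
    (hN2 : ∀ m, 1 ≤ m → m0 ≤ m → ∀ I, N m I ≤ (1 - η) * P m) (I : ℕ) :
    ∑ m ∈ Finset.range I, P m ≤ (C0 + C1 * Kc C0 C1 m0) / η := by
  -- first bound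
  have hb : ∀ m I, N m I ≤ (if m = 0 then C0 else 0) + C1 * P m := by
    intro m I
    split_ifs with h0
    · subst h0
      have := hN0 I
      have := hP0 0
      have : 0 ≤ C1 * P 0 := by positivity
      linarith
    · have := hN1 m (by omega) I
      linarith
  have hite : ∀ I : ℕ, ∑ m ∈ Finset.range I, (if m = 0 then C0 else 0) ≤ C0 := by
    intro I
    cases I with
    | zero => simpa using hC0
    | succ I =>
      rw [Finset.sum_range_succ']
      simp
  have hfirst : ∀ I, ∑ m ∈ Finset.range I, P m ≤ Kc C0 C1 I := by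
    intro I
    induction I with
    | zero => simp [Kc]
    | succ I ih =>
      have h1 := h (I + 1)
      rw [Finset.sum_range_succ (fun m => N m (I + 1))] at h1
      have h2 := hlast I
      have h3 : ∑ m ∈ Finset.range I, N m (I + 1)
          ≤ ∑ m ∈ Finset.range I, ((if m = 0 then C0 else 0) + C1 * P m) :=
        Finset.sum_le_sum (fun m _ => hb m (I + 1))
      rw [Finset.sum_add_distrib, ← Finset.mul_sum] at h3
      have h4 := hite I
      show ∑ m ∈ Finset.range (I + 1), P m ≤ C0 + C1 * Kc C0 C1 I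
      have h5 : C1 * ∑ m ∈ Finset.range I, P m ≤ C1 * Kc C0 C1 I := by gcongr
      linarith
  have hsmall : ∀ I, ∑ m ∈ Finset.range I, (if m < m0 then P m else 0) ≤ Kc C0 C1 m0 := by
    intro I
    rw [← Finset.sum_filter]
    refine le_trans ?_ (hfirst m0)
    apply Finset.sum_le_sum_of_subset_of_nonneg
    · intro m hm
      rw [Finset.mem_filter] at hm
      exact Finset.mem_range.mpr hm.2
    · intro m _ _
      exact hP0 m
  have h1 := h I
  have h2 : ∑ m ∈ Finset.range I, N m I ≤ ∑ m ∈ Finset.range I,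
      ((if m = 0 then C0 else 0) + C1 * (if m < m0 then P m else 0) + (1 - η) * P m) := by
    apply Finset.sum_le_sum
    intro m _
    have hP := hP0 m
    have h3 : 0 ≤ (1 - η) * P m := mul_nonneg (by linarith) hP
    by_cases hm : m < m0
    · rw [if_pos hm]
      have := hb m I
      linarith
    · rw [if_neg hm]
      by_cases h0 : m = 0
      · subst h0
        have := hN0 I
        simp only [if_true]
        linarith
      · rw [if_neg h0]
        have := hN2 m (by omega) (by omega) I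
        linarith
  rw [Finset.sum_add_distrib, Finset.sum_add_distrib, ← Finset.mul_sum, ← Finset.mul_sum] at h2
  have h4 := hite I
  have h5 : C1 * ∑ m ∈ Finset.range I, (if m < m0 then P m else 0) ≤ C1 * Kc C0 C1 m0 := by
    have := hsmall I
    gcongr
  rw [le_div_iff₀ hη]
  nlinarith

/-- the upper part written with an explicit index -/
theorem upper_eq (a : ℕ → ℝ) (m I : ℕ) :
    ∑ i ∈ Finset.range I, ((i - m : ℕ) : ℝ) * a i
      = ∑ j ∈ Finset.range (I - (m + 1)), ((j : ℝ) + 1) * a (m + 1 + j) := by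
  rcases le_or_gt I (m + 1) with h | h
  · have e : I - (m + 1) = 0 := by omega
    rw [e, Finset.sum_range_zero]
    apply Finset.sum_eq_zero
    intro i hi
    rw [Finset.mem_range] at hi
    have : i - m = 0 := by omega
    rw [this]; simp
  · obtain ⟨J, rfl⟩ : ∃ J, I = m + 1 + J := ⟨I - (m + 1), by omega⟩
    have e : m + 1 + J - (m + 1) = J := by omega
    rw [e, Finset.sum_range_add]
    have h0 : ∑ i ∈ Finset.range (m + 1), ((i - m : ℕ) : ℝ) * a i = 0 := by
      apply Finset.sum_eq_zero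
      intro i hi
      rw [Finset.mem_range] at hi
      have : i - m = 0 := by omega
      rw [this]; simp
    rw [h0, zero_add]
    apply Finset.sum_congr rfl
    intro j _
    have : m + 1 + j - m = j + 1 := by omega
    rw [this]
    push_cast
    ring

end Pool.Agent.Helper86.CJ
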