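import Mathlib
import Pool.Agent.Helper22.Half.Binom

/-!
MP_16b0ee, project CJ: sums of quotients of rising factorials.
-/

set_option autoImplicit false

open Filter Topology

namespace Pool.Agent.Helper86.CJ

open Pool.Agent.Helper22.Half (pq pq_zero pq_succ pq_succ' pq_shift pq_add_one pq_one vander)

/-- rising factorial -/
noncomputable def rf (x : ℝ) : ℕ → ℝ
  | 0 => 1
  | n + 1 => rf x n * (x + n)

theorem rf_zero (x : ℝ) : rf x 0 = 1 := rfl

theorem rf_succ (x : ℝ) (n : ℕ) : rf x (n + 1) = rf x n * (x + n) := rfl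

theorem rf_pos {x : ℝ} (hx : 0 < x) (n : ℕ) : 0 < rf x n := by
  induction n with
  | zero => simp [rf]
  | succ n ih => rw [rf_succ]; positivity

theorem rf_nonneg {x : ℝ} (hx : 0 ≤ x) (n : ℕ) : 0 ≤ rf x n := by
  induction n with
  | zero => simp [rf]
  | succ n ih => rw [rf_succ]; positivity

theorem rf_one_le {x : ℝ} (hx : 1 ≤ x) (n : ℕ) : 1 ≤ rf x n := by
  induction n with
  | zero => simp [rf]
  | succ n ih =>
    rw [rf_succ]
    have : (0 : ℝ) ≤ n := Nat.cast_nonneg n
    nlinarith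

theorem rf_add (x : ℝ) (a b : ℕ) : rf x (a + b) = rf x a * rf (x + a) b := by
  induction b with
  | zero => simp [rf]
  | succ b ih =>
    rw [← add_assoc, rf_succ, ih, rf_succ]
    push_cast
    ring

theorem rf_swap (x : ℝ) (a b : ℕ) : rf x a * rf (x + a) b = rf x b * rf (x + b) a := by
  rw [← rf_add, ← rf_add, add_comm]

theorem rf_mul_le {x a b : ℝ} (hx : 0 ≤ x) (ha : 0 ≤ a) (hb : 0 ≤ b) (n : ℕ) :
    rf x n * rf (x + a + b) n ≤ rf (x + b) n * rf (x + a) n := by
  induction n with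
  | zero => simp [rf]
  | succ n ih =>
    rw [rf_succ, rf_succ, rf_succ, rf_succ]
    have hn : (0 : ℝ) ≤ n := Nat.cast_nonneg n
    have h1 : (x + n) * (x + a + b + n) ≤ (x + b + n) * (x + a + n) := by
      have : 0 ≤ a * b := mul_nonneg ha hb
      nlinarith
    have h2 : 0 ≤ (x + n) * (x + a + b + n) := by positivity
    have h3 : 0 ≤ rf (x + b) n * rf (x + a) n :=
      mul_nonneg (rf_nonneg (by linarith) n) (rf_nonneg (by linarith) n)
    calc rf x n * (x + n) * (rf (x + a + b) n * (x + a + b + n))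
        = (rf x n * rf (x + a + b) n) * ((x + n) * (x + a + b + n)) := by ring
      _ ≤ (rf (x + b) n * rf (x + a) n) * ((x + b + n) * (x + a + n)) := by
          apply mul_le_mul ih h1 h2 h3
      _ = _ := by ring

theorem rf_eq (x : ℝ) (K : ℕ) : rf x K = K.factorial * pq x K := by
  induction K with
  | zero => simp [rf, pq]
  | succ K ih =>
    rw [rf_succ, ih, pq_succ, Nat.factorial_succ]
    push_cast
    have : (K : ℝ) + 1 ≠ 0 := by positivity
    field_simp

/-- partial sums of Gauss' series -/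
theorem gauss_fin {x c : ℝ} (hx : 0 ≤ x) (hc : x + 2 < c) (N : ℕ) :
    ∑ K ∈ Finset.range N, ((K : ℝ) + 1) * (rf x K / rf c K)
      = (c - 1) * (c - 2) / ((c - 1 - x) * (c - 2 - x))
        - rf x N / rf c N * ((c + N - 1) * (N / (c - 2 - x)
          + (c - 2) / ((c - 2 - x) * (c - 1 - x)))) := by
  have hcp : 0 < c := by linarith
  have h1 : c - 2 - x ≠ 0 := by
    intro h; linarith
  have h2 : c - 1 - x ≠ 0 := by
    intro h; linarith
  induction N with
  | zero =>
    simp only [Finset.range_zero, Finset.sum_empty, rf_zero, Nat.cast_zero]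
    field_simp
    ring
  | succ N ih =>
    rw [Finset.sum_range_succ, ih, rf_succ, rf_succ]
    have hr := (rf_pos hcp N).ne'
    have hcN : c + N ≠ 0 := by positivity
    push_cast
    field_simp
    ring

theorem gauss_hasSum {x : ℝ} (hx : 1 ≤ x) {q : ℕ} (hq : 3 ≤ q) :
    HasSum (fun K : ℕ => ((K : ℝ) + 1) * (rf x K / rf (x + q) K))
      ((x + q - 1) * (x + q - 2) / (((q : ℝ) - 1) * ((q : ℝ) - 2))) := by
  have hq' : (3 : ℝ) ≤ q := by exact_mod_cast hq
  obtain ⟨c, hc⟩ : ∃ c : ℝ, c = x + q := ⟨_, rfl⟩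
  have hcp : 0 < c := by rw [hc]; linarith
  rw [hasSum_iff_tendsto_nat_of_nonneg]
  · have hfin := gauss_fin (x := x) (c := x + q) (by linarith) (by linarith)
    have e1 : x + (q : ℝ) - 1 - x = (q : ℝ) - 1 := by ring
    have e2 : x + (q : ℝ) - 2 - x = (q : ℝ) - 2 := by ring
    rw [e1, e2] at hfin
    simp_rw [hfin]
    obtain ⟨D, hD⟩ : ∃ D : ℝ, D = rf x q * ((x + q) * (1 / ((q : ℝ) - 2)
      + (x + q - 2) / (((q : ℝ) - 2) * ((q : ℝ) - 1)))) := ⟨_, rfl⟩
    have q1 : (0 : ℝ) < (q : ℝ) - 1 := by linarith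
    have q2 : (0 : ℝ) < (q : ℝ) - 2 := by linarith
    have hrq := rf_pos (by linarith : 0 < x) q
    have hlim : Tendsto (fun N : ℕ => rf x N / rf (x + q) N * ((x + q + N - 1) * (N / ((q : ℝ) - 2)
          + (x + q - 2) / (((q : ℝ) - 2) * ((q : ℝ) - 1))))) atTop (𝓝 0) := by
      have h0 : Tendsto (fun N : ℕ => D * (1 / ((N : ℝ) + 1))) atTop (𝓝 0) := by
        have := (tendsto_one_div_add_atTop_nhds_zero_nat (𝕜 := ℝ)).const_mul D
        simpa using this
      refine squeeze_zero (fun N => ?_) (fun N => ?_) h0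
      · have := rf_pos (by linarith : 0 < x) N
        have := rf_pos (by linarith : 0 < x + q) N
        have hN : (0 : ℝ) ≤ N := Nat.cast_nonneg N
        have a1 : 0 ≤ x + q + N - 1 := by linarith
        have a2 : 0 ≤ x + q - 2 := by linarith
        positivity
      · have hN : (0 : ℝ) ≤ N := Nat.cast_nonneg N
        have hsw := rf_swap x N q
        have p1 := rf_pos (by linarith : 0 < x + q) N
        have p2 := rf_pos (by linarith : 0 < x + (N : ℝ)) q
        have e3 : rf x N / rf (x + q) N = rf x q / rf (x + N) q := by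
          rw [div_eq_div_iff p1.ne' p2.ne']
          exact hsw
        have hge : ((N : ℝ) + 1) ^ 3 ≤ rf (x + N) q := by
          obtain ⟨r, rfl⟩ : ∃ r, q = 3 + r := ⟨q - 3, by omega⟩
          rw [rf_add]
          have h3 : rf (x + N) 3 = (x + N) * (x + N + 1) * (x + N + 2) := by
            simp [rf]
          have h4 : 1 ≤ rf (x + N + ((3 : ℕ) : ℝ)) r := rf_one_le (by push_cast; linarith) r
          have h5 : ((N : ℝ) + 1) ^ 3 ≤ (x + N) * (x + N + 1) * (x + N + 2) := by
            have g1 : (N : ℝ) + 1 ≤ x + N := by linarith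
            have g2 : (N : ℝ) + 1 ≤ x + N + 1 := by linarith
            have g3 : (N : ℝ) + 1 ≤ x + N + 2 := by linarith
            have g0 : (0 : ℝ) ≤ (N : ℝ) + 1 := by linarith
            calc ((N : ℝ) + 1) ^ 3 = (N + 1) * (N + 1) * (N + 1) := by ring
              _ ≤ (x + N) * (x + N + 1) * (x + N + 2) :=
                  mul_le_mul (mul_le_mul g1 g2 g0 (by linarith)) g3 g0 (by positivity)
          have h6 : (0 : ℝ) ≤ ((N : ℝ) + 1) ^ 3 := by positivity
          rw [h3]
          nlinarith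
        rw [e3, hD]
        have a2 : 0 ≤ x + q - 2 := by linarith
        have b1 : x + q + N - 1 ≤ (x + q) * (N + 1) := by nlinarith
        have b2 : (N : ℝ) / ((q : ℝ) - 2) + (x + q - 2) / (((q : ℝ) - 2) * ((q : ℝ) - 1))
            ≤ (1 / ((q : ℝ) - 2) + (x + q - 2) / (((q : ℝ) - 2) * ((q : ℝ) - 1))) * (N + 1) := by
          have c1 : 0 ≤ 1 / ((q : ℝ) - 2) := by positivity
          have c2 : 0 ≤ (x + q - 2) / (((q : ℝ) - 2) * ((q : ℝ) - 1)) := by positivity
          have c3 : (N : ℝ) / ((q : ℝ) - 2) = 1 / ((q : ℝ) - 2) * N := by ring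
          rw [c3]
          nlinarith
        have c2 : 0 ≤ (x + q - 2) / (((q : ℝ) - 2) * ((q : ℝ) - 1)) := by positivity
        have b0 : 0 ≤ (N : ℝ) / ((q : ℝ) - 2) + (x + q - 2) / (((q : ℝ) - 2) * ((q : ℝ) - 1)) := by
          positivity
        have b3 : 0 ≤ (x + q) * ((N : ℝ) + 1) := by positivity
        calc rf x q / rf (x + N) q * ((x + q + N - 1) * (N / ((q : ℝ) - 2)
              + (x + q - 2) / (((q : ℝ) - 2) * ((q : ℝ) - 1))))
            ≤ rf x q / ((N : ℝ) + 1) ^ 3 * (((x + q) * (N + 1)) * ((1 / ((q : ℝ) - 2)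
              + (x + q - 2) / (((q : ℝ) - 2) * ((q : ℝ) - 1))) * (N + 1))) := by
              apply mul_le_mul
              · exact div_le_div_of_nonneg_left hrq.le (by positivity) hge
              · exact mul_le_mul b1 b2 b0 b3
              · apply mul_nonneg _ b0
                linarith
              · positivity
          _ = _ := by
              field_simp
    have := (tendsto_const_nhds (x := (x + q - 1) * (x + q - 2)
      / (((q : ℝ) - 1) * ((q : ℝ) - 2)))).sub hlim
    rw [sub_zero] at this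
    exact this
  · intro K
    have := rf_pos (by linarith : 0 < x) K
    have := rf_pos (by linarith : 0 < x + q) K
    positivity

/-- a telescoping sum -/
theorem tele_fin {x s : ℝ} (hx : 0 < x) (hs : 0 < s) (N : ℕ) :
    ∑ J ∈ Finset.range N, ((J : ℝ) + 1) * (rf x J / rf (x + s) (J + 2))
      = 1 / (s * (s + 1)) - rf x N / rf (x + s) (N + 1) * (N / s + (x + s) / (s * (s + 1))) := by
  have hxs : 0 < x + s := by linarith
  induction N with
  | zero =>
    simp only [Finset.range_zero, Finset.sum_empty, rf_zero, Nat.cast_zero, rf_succ]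
    field_simp
    ring
  | succ N ih =>
    rw [Finset.sum_range_succ, ih, rf_succ x N, rf_succ (x + s) (N + 1)]
    have hr := (rf_pos hxs (N + 1)).ne'
    have hN : x + s + ((N + 1 : ℕ) : ℝ) ≠ 0 := by positivity
    push_cast at hN ⊢
    field_simp
    ring

theorem tele_le {x s : ℝ} (hx : 0 < x) (hs : 0 < s) (N : ℕ) :
    ∑ J ∈ Finset.range N, ((J : ℝ) + 1) * (rf x J / rf (x + s) (J + 2)) ≤ 1 / (s * (s + 1)) := by
  rw [tele_fin hx hs]
  have h1 := rf_pos hx N
  have h2 := rf_pos (by linarith : 0 < x + s) (N + 1)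
  have : 0 ≤ rf x N / rf (x + s) (N + 1) * (N / s + (x + s) / (s * (s + 1))) := by positivity
  linarith

/-! ### the lower sums -/

theorem pq_pos' {b : ℝ} (hb : 0 < b) (n : ℕ) : 0 < pq b n := by
  induction n with
  | zero => simp [pq]
  | succ n ih => rw [pq_succ]; positivity

theorem pq_symm (n K : ℕ) : pq ((n : ℝ) + 1) K = pq ((K : ℝ) + 1) n := by
  have h : ∀ n K : ℕ, pq ((n : ℝ) + 1) K * (K.factorial * n.factorial) = (n + K).factorial := by
    intro n K
    induction K with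
    | zero => simp [pq]
    | succ K ih =>
      rw [pq_succ, ← add_assoc, Nat.factorial_succ, Nat.factorial_succ]
      push_cast
      rw [← ih]
      have : (K : ℝ) + 1 ≠ 0 := by positivity
      field_simp
      ring
  have h1 := h n K
  have h2 := h K n
  rw [add_comm K n, ← h1, mul_comm (n.factorial : ℝ)] at h2
  have h3 : ((K.factorial : ℝ) * n.factorial) ≠ 0 := by positivity
  exact (mul_right_cancel₀ h3 h2).symm

theorem pq_prod (b : ℝ) (M K : ℕ) :
    pq (b + 1 + K) M * pq (b + 1) K = pq (b + 1) (M + K) * pq ((K : ℝ) + 1) M := by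
  have h1 := rf_add (b + 1) K M
  rw [rf_eq, rf_eq, rf_eq] at h1
  have h : ∀ n K : ℕ, pq ((n : ℝ) + 1) K * (K.factorial * n.factorial) = (n + K).factorial := by
    intro n K
    induction K with
    | zero => simp [pq]
    | succ K ih =>
      rw [pq_succ, ← add_assoc, Nat.factorial_succ, Nat.factorial_succ]
      push_cast
      rw [← ih]
      have : (K : ℝ) + 1 ≠ 0 := by positivity
      field_simp
      ring
  have h2 := h K M
  rw [← h2, add_comm K M] at h1
  have h3 : ((M.factorial : ℝ) * K.factorial) ≠ 0 := by positivity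
  apply mul_left_cancel₀ h3
  linear_combination -h1

theorem pq_incr (b : ℝ) (n : ℕ) : pq (b + 1) (n + 1) = pq (b + 1) n + pq b (n + 1) := by
  have h1 := pq_shift b n
  have h2 := pq_succ' (b + 1) n
  have h3 : (n : ℝ) + 1 ≠ 0 := by positivity
  apply mul_left_cancel₀ h3
  linear_combination h2 - h1

theorem pq_anti {b : ℝ} (hb : 0 < b) (hb1 : b ≤ 1) {n n' : ℕ} (h : n ≤ n') :
    pq b n' ≤ pq b n := by
  induction n', h using Nat.le_induction with
  | base => exact le_rfl
  | succ k hk ih =>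
    refine le_trans ?_ ih
    rw [pq_succ]
    have h1 := pq_pos' hb k
    have h2 : (b + k) / ((k : ℝ) + 1) ≤ 1 := by
      rw [div_le_one (by positivity)]
      linarith
    nlinarith

theorem pq_subadd {b : ℝ} (hb : 0 < b) (hb1 : b ≤ 1) (M K : ℕ) :
    pq (b + 1) (M + K) ≤ pq (b + 1) M + pq (b + 1) K := by
  induction K with
  | zero =>
    rw [add_zero, pq_zero]
    linarith
  | succ K ih =>
    rw [← add_assoc, pq_incr, pq_incr b K]
    have := pq_anti hb hb1 (n := K + 1) (n' := M + K + 1) (by omega)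
    linarith

/-- the sum over the lower indices -/
theorem isum_le {b : ℝ} (hb : 0 < b) (hb1 : b ≤ 1) (M K : ℕ) :
    ∑ i ∈ Finset.range M, pq b (i + 1) * (rf ((M - i : ℕ) : ℝ) K / rf ((M : ℝ) + 1) K)
      ≤ pq (b + 1) M / pq (b + 1) K := by
  have hv := vander b ((K : ℝ) + 1) M
  have hKp := pq_pos' (by positivity : (0 : ℝ) < (K : ℝ) + 1) M
  have hgK := pq_pos' (by linarith : 0 < b + 1) K
  have hterm : ∀ i ∈ Finset.range (M + 1), pq b i * (rf ((M + 1 - i : ℕ) : ℝ) K / rf ((M : ℝ) + 1) K)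
      = pq b i * pq ((K : ℝ) + 1) (M - i) / pq ((K : ℝ) + 1) M := by
    intro i hi
    rw [Finset.mem_range] at hi
    have e : ((M + 1 - i : ℕ) : ℝ) = ((M - i : ℕ) : ℝ) + 1 := by
      rw [← Nat.cast_add_one]; congr 1; omega
    rw [e, rf_eq, rf_eq, pq_symm (M - i) K, pq_symm M K]
    have : (K.factorial : ℝ) ≠ 0 := by positivity
    field_simp
  have hsum : ∑ i ∈ Finset.range (M + 1), pq b i * (rf ((M + 1 - i : ℕ) : ℝ) K / rf ((M : ℝ) + 1) K)
      = pq (b + 1) (M + K) / pq (b + 1) K := by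
    rw [Finset.sum_congr rfl hterm, ← Finset.sum_div, hv, div_eq_div_iff hKp.ne' hgK.ne']
    have e : b + ((K : ℝ) + 1) = b + 1 + K := by ring
    rw [e]
    exact pq_prod b M K
  rw [Finset.sum_range_succ'] at hsum
  have e0 : pq b 0 * (rf ((M + 1 - 0 : ℕ) : ℝ) K / rf ((M : ℝ) + 1) K) = 1 := by
    rw [pq_zero, one_mul, Nat.sub_zero]
    push_cast
    exact div_self (rf_pos (by positivity) K).ne'
  rw [e0] at hsum
  have e1 : ∀ i ∈ Finset.range M, pq b (i + 1) * (rf ((M - i : ℕ) : ℝ) K / rf ((M : ℝ) + 1) K)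
      = pq b (i + 1) * (rf ((M + 1 - (i + 1) : ℕ) : ℝ) K / rf ((M : ℝ) + 1) K) := by
    intro i _
    have : M + 1 - (i + 1) = M - i := by omega
    rw [this]
  rw [Finset.sum_congr rfl e1, eq_sub_of_add_eq hsum]
  have h1 := pq_subadd hb hb1 M K
  have h2 : pq (b + 1) (M + K) / pq (b + 1) K ≤ (pq (b + 1) M + pq (b + 1) K) / pq (b + 1) K := by
    gcongr
  rw [add_div, div_self hgK.ne'] at h2
  linarith

/-! ### the upper sums -/

theorem beta_rel {b m : ℝ} (b0 : ℝ) (hm : 0 < m) (mm : ℕ) (hmm : (mm : ℝ) = m) (j : ℕ) :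
    (m + j) * pq b (mm + j) * rf m j = m * pq b mm * rf (m + b) j := by
  induction j with
  | zero => simp [rf]
  | succ j ih =>
    rw [rf_succ, rf_succ, ← add_assoc]
    have h1 := pq_succ' b (mm + j)
    push_cast at h1
    rw [hmm] at h1
    push_cast
    have hmj : 0 < m + j := by positivity
    calc (m + (j + 1)) * pq b (mm + j + 1) * (rf m j * (m + j))
        = ((m + j + 1) * pq b (mm + j + 1)) * (rf m j * (m + j)) := by ring
      _ = (pq b (mm + j) * (b + (m + j))) * (rf m j * (m + j)) := by rw [h1]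
      _ = ((m + j) * pq b (mm + j) * rf m j) * (m + b + j) := by ring
      _ = _ := by rw [ih]; ring

/-- the weight -/
noncomputable def om (b : ℝ) (n : ℕ) : ℝ := n / (((n : ℝ) - 1 / 2) ^ 2 * pq b n)

/-- each term of the sum over the upper indices -/
theorem jterm_le {b : ℝ} (hb : 0 < b) (hb1 : b ≤ 1) (mm : ℕ) (hm : 1 ≤ mm) (K j : ℕ) :
    ((j : ℝ) + 1) * om b (mm + (j + 1)) * (rf mm K / ((((mm : ℝ) + (j + 1)) * ((mm : ℝ) + j))
        * rf ((mm : ℝ) + (j + 1) + 1) K))
      ≤ (1 + 5 / (4 * mm)) * (1 + b / mm) * (1 / (mm * pq b mm))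
        * (((j : ℝ) + 1) * (rf mm j / rf ((mm : ℝ) + (K + b)) (j + 2))) := by
  obtain ⟨m, hmd⟩ : ∃ m : ℝ, m = mm := ⟨_, rfl⟩
  rw [← hmd]
  have hm1 : (1 : ℝ) ≤ m := by rw [hmd]; exact_mod_cast hm
  have hm0 : 0 < m := by linarith
  have hj0 : (0 : ℝ) ≤ j := Nat.cast_nonneg j
  have hK0 : (0 : ℝ) ≤ K := Nat.cast_nonneg K
  have hbr := beta_rel (b := b) 0 hm0 mm hmd.symm (j + 1)
  have hpn := pq_pos' hb (mm + (j + 1))
  have hpm := pq_pos' hb mm
  have hsw := rf_swap m K (j + 2)
  have r1 := rf_pos hm0 j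
  have r2 := rf_pos (by linarith : 0 < m + b) (j + 1)
  have r3 := rf_pos (by linarith : 0 < m + K) (j + 1)
  have r4 := rf_pos (by linarith : 0 < m + (K + b)) (j + 1)
  have r5 := rf_pos (by linarith : 0 < m + (j + 1) + 1) K
  have r6 := rf_pos hm0 (j + 1)
  have hle := rf_mul_le (x := m) (a := K) (b := b) hm0.le hK0 hb.le (j + 1)
  have e4 : m + (K : ℝ) + b = m + (K + b) := by ring
  rw [e4] at hle
  obtain ⟨n, hn⟩ : ∃ n : ℝ, n = m + (j + 1) := ⟨_, rfl⟩
  have hn2 : 2 ≤ n := by rw [hn]; linarith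
  have hnm : m + 1 ≤ n := by rw [hn]; linarith
  have hn0 : 0 < n := by linarith
  have hnh : 0 < n - 1 / 2 := by linarith
  have ecast : ((mm + (j + 1) : ℕ) : ℝ) = n := by rw [hn, hmd]; push_cast; ring
  -- rewrite the left hand side
  have e1 : rf m K / rf (m + (j + 1) + 1) K = rf m (j + 1) * n / (rf (m + K) (j + 1) * (n + K)) := by
    have e5 : m + ((j + 2 : ℕ) : ℝ) = m + (j + 1) + 1 := by push_cast; ring
    rw [e5] at hsw
    have e6 : rf m (j + 2) = rf m (j + 1) * n := by
      rw [rf_succ, hn]; push_cast; ring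
    have e7 : rf (m + K) (j + 2) = rf (m + K) (j + 1) * (n + K) := by
      rw [rf_succ, hn]; push_cast; ring
    rw [e6, e7] at hsw
    rw [div_eq_div_iff r5.ne' (by positivity)]
    linear_combination hsw
  have e2 : 1 / pq b (mm + (j + 1)) = n * rf m (j + 1) / (m * pq b mm * rf (m + b) (j + 1)) := by
    rw [div_eq_div_iff hpn.ne' (by positivity)]
    push_cast at hbr
    rw [← hn] at hbr
    linear_combination -hbr
  have e3 : rf m (j + 1) = rf m j * (n - 1) := by
    rw [rf_succ, hn]; ring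
  have e8 : m + (j : ℝ) = n - 1 := by rw [hn]; ring
  have hLHS : ((j : ℝ) + 1) * om b (mm + (j + 1)) * (rf m K / (((m + (j + 1)) * (m + j))
        * rf (m + (j + 1) + 1) K))
      = ((j : ℝ) + 1) * (1 / (m * pq b mm)) * (n ^ 2 / ((n - 1 / 2) ^ 2 * (n - 1) * (n + K)))
        * (rf m (j + 1) * rf m (j + 1) / (rf (m + b) (j + 1) * rf (m + K) (j + 1))) := by
    unfold om
    rw [ecast]
    have e9 : rf m K / (((m + (j + 1)) * (m + j)) * rf (m + (j + 1) + 1) K)
        = (1 / (n * (n - 1))) * (rf m K / rf (m + (j + 1) + 1) K) := by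
      rw [e8, ← hn]
      rw [one_div, inv_mul_eq_div, div_div, mul_comm (rf (n + 1) K)]
    rw [e9, e1]
    have e10 : n / ((n - 1 / 2) ^ 2 * pq b (mm + (j + 1)))
        = n / (n - 1 / 2) ^ 2 * (1 / pq b (mm + (j + 1))) := by
      rw [div_mul_div_comm, mul_one]
    rw [e10, e2]
    have h1 : n - 1 ≠ 0 := by
      intro h; linarith
    have h2 : n + K ≠ 0 := by positivity
    have h3 := hnh.ne'
    have h4 := hpm.ne'
    have h5 := r2.ne'
    have h6 := r3.ne'
    field_simp
  rw [hLHS]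
  have hquot : rf m (j + 1) * rf m (j + 1) / (rf (m + b) (j + 1) * rf (m + K) (j + 1))
      ≤ rf m (j + 1) / rf (m + (K + b)) (j + 1) := by
    rw [div_le_div_iff₀ (by positivity) r4]
    calc rf m (j + 1) * rf m (j + 1) * rf (m + (K + b)) (j + 1)
        = rf m (j + 1) * (rf m (j + 1) * rf (m + (K + b)) (j + 1)) := by ring
      _ ≤ rf m (j + 1) * (rf (m + b) (j + 1) * rf (m + K) (j + 1)) := by gcongr
  have hn1 : 0 < n - 1 := by linarith
  have hnK : 0 < n + K := by positivity
  have hcoef : n ^ 2 / (n - 1 / 2) ^ 2 ≤ 1 + 5 / (4 * m) := by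
    rw [div_le_iff₀ (by positivity)]
    have h1 : n ^ 2 ≤ (1 + 5 / (4 * m)) * (n - 1 / 2) ^ 2 ↔
        n ^ 2 - (n - 1 / 2) ^ 2 ≤ 5 / (4 * m) * (n - 1 / 2) ^ 2 := by
      constructor <;> intro h <;> linarith
    rw [h1, div_mul_eq_mul_div, le_div_iff₀ (by positivity)]
    nlinarith [mul_nonneg (by linarith : 0 ≤ n - 1 - m) hn0.le,
      mul_nonneg (by linarith : 0 ≤ n - 1 - m) hn1.le]
  have hcoef2 : 1 / (n + K) ≤ (1 + b / m) * (1 / (n + K + b)) := by
    rw [mul_one_div, div_le_div_iff₀ hnK (by positivity)]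
    have h1 : b ≤ b / m * (n + K) := by
      rw [div_mul_eq_mul_div, le_div_iff₀ hm0]
      apply mul_le_mul_of_nonneg_left _ hb.le
      linarith
    linarith
  have hfin : rf m (j + 1) / rf (m + (K + b)) (j + 1) * (1 / (n - 1)) * (1 / (n + K + b))
      = rf m j / rf (m + (K + b)) (j + 2) := by
    have e11 : rf (m + (K + b)) (j + 2) = rf (m + (K + b)) (j + 1) * (n + K + b) := by
      rw [rf_succ, hn]; push_cast; ring
    rw [e11, e3]
    have h1 : n - 1 ≠ 0 := hn1.ne'
    have h2 := r4.ne'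
    have h3 : n + K + b ≠ 0 := by positivity
    field_simp
  have hr0 : 0 ≤ rf m (j + 1) / rf (m + (K + b)) (j + 1) := by positivity
  have hA : 0 ≤ ((j : ℝ) + 1) * (1 / (m * pq b mm)) := by positivity
  calc ((j : ℝ) + 1) * (1 / (m * pq b mm)) * (n ^ 2 / ((n - 1 / 2) ^ 2 * (n - 1) * (n + K)))
        * (rf m (j + 1) * rf m (j + 1) / (rf (m + b) (j + 1) * rf (m + K) (j + 1)))
      ≤ ((j : ℝ) + 1) * (1 / (m * pq b mm)) * (n ^ 2 / ((n - 1 / 2) ^ 2 * (n - 1) * (n + K)))
        * (rf m (j + 1) / rf (m + (K + b)) (j + 1)) := by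
        apply mul_le_mul_of_nonneg_left hquot
        positivity
    _ = ((j : ℝ) + 1) * (1 / (m * pq b mm)) * ((n ^ 2 / (n - 1 / 2) ^ 2) * (1 / (n + K)))
        * (rf m (j + 1) / rf (m + (K + b)) (j + 1) * (1 / (n - 1))) := by
        have h1 : n - 1 ≠ 0 := hn1.ne'
        have h2 := hnh.ne'
        have h3 := hnK.ne'
        field_simp
    _ ≤ ((j : ℝ) + 1) * (1 / (m * pq b mm)) * ((1 + 5 / (4 * m)) * ((1 + b / m) * (1 / (n + K + b))))
        * (rf m (j + 1) / rf (m + (K + b)) (j + 1) * (1 / (n - 1))) := by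
        apply mul_le_mul_of_nonneg_right _ (by positivity)
        apply mul_le_mul_of_nonneg_left _ hA
        apply mul_le_mul hcoef hcoef2 (by positivity) (by positivity)
    _ = (1 + 5 / (4 * m)) * (1 + b / m) * (1 / (m * pq b mm))
        * (((j : ℝ) + 1) * (rf m (j + 1) / rf (m + (K + b)) (j + 1) * (1 / (n - 1))
          * (1 / (n + K + b)))) := by ring
    _ = _ := by rw [hfin]

/-- the sum over the upper indices -/
theorem jsum_le {b : ℝ} (hb : 0 < b) (hb1 : b ≤ 1) (mm : ℕ) (hm : 1 ≤ mm) (K J : ℕ) :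
    ∑ j ∈ Finset.range J, ((j : ℝ) + 1) * om b (mm + (j + 1)) *
      (rf mm K / ((((mm : ℝ) + (j + 1)) * ((mm : ℝ) + j)) * rf ((mm : ℝ) + (j + 1) + 1) K))
      ≤ (1 + 5 / (4 * mm)) * (1 + b / mm) * (1 / (mm * pq b mm))
        * (1 / ((K + b) * (K + b + 1))) := by
  have hm' : (0 : ℝ) < mm := by exact_mod_cast (by omega : 0 < mm)
  have hK0 : (0 : ℝ) ≤ K := Nat.cast_nonneg K
  refine (Finset.sum_le_sum (fun j _ => jterm_le hb hb1 mm hm K j)).trans ?_
  rw [← Finset.mul_sum]
  apply mul_le_mul_of_nonneg_left (tele_le hm' (by positivity) J)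
  have := pq_pos' hb mm
  positivity

end Pool.Agent.Helper86.CJ
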