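import Mathlib
import Pool.Agent.Helper86.CJ.Sums

/-!
MP_16b0ee, project CJ: the Hilbert-Schmidt sum, its numerical value, and Wallis' bounds.
-/

set_option autoImplicit false

open Filter Topology

namespace Pool.Agent.Helper86.CJ

open Pool.Agent.Helper22.Half (pq pq_zero pq_succ pq_succ' pq_shift pq_add_one pq_one vander)

/-- the double sum -/
noncomputable def DS (b : ℝ) (M J : ℕ) : ℝ :=
  ∑ j ∈ Finset.range J, ∑ i ∈ Finset.range M, ((j : ℝ) + 1) * om b (M + 1 + (j + 1)) * pq b (i + 1)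
    * (1 / (((j : ℝ) + i + 2) * ((j : ℝ) + i + 1)))

theorem om_nonneg {b : ℝ} (hb : 0 < b) (n : ℕ) : 0 ≤ om b n := by
  unfold om
  have := pq_pos' hb n
  positivity

theorem DS_hasSum {b : ℝ} (M J : ℕ) :
    HasSum (fun K : ℕ => ((K : ℝ) + 1)
      * (∑ i ∈ Finset.range M, pq b (i + 1) * (rf ((M - i : ℕ) : ℝ) K / rf ((M : ℝ) + 1) K))
      * (∑ j ∈ Finset.range J, ((j : ℝ) + 1) * om b (M + 1 + (j + 1)) *
        (rf ((M + 1 : ℕ) : ℝ) K / (((((M + 1 : ℕ) : ℝ) + (j + 1)) * (((M + 1 : ℕ) : ℝ) + j))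
          * rf (((M + 1 : ℕ) : ℝ) + (j + 1) + 1) K)))) (DS b M J) := by
  have h1 : ∀ j ∈ Finset.range J, ∀ i ∈ Finset.range M,
      HasSum (fun K : ℕ => ((j : ℝ) + 1) * om b (M + 1 + (j + 1)) * pq b (i + 1)
        * ((1 / ((((M + 1 : ℕ) : ℝ) + (j + 1)) * (((M + 1 : ℕ) : ℝ) + j)))
          * (((K : ℝ) + 1) * (rf ((M - i : ℕ) : ℝ) K / rf (((M + 1 : ℕ) : ℝ) + (j + 1) + 1) K))))
        (((j : ℝ) + 1) * om b (M + 1 + (j + 1)) * pq b (i + 1)
          * (1 / (((j : ℝ) + i + 2) * ((j : ℝ) + i + 1)))) := by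
    intro j _ i hi
    rw [Finset.mem_range] at hi
    apply HasSum.mul_left
    have hx : (1 : ℝ) ≤ ((M - i : ℕ) : ℝ) := by
      have : 1 ≤ M - i := by omega
      exact_mod_cast this
    have hg := gauss_hasSum hx (q := j + i + 3) (by omega)
    have e1 : ((M - i : ℕ) : ℝ) + ((j + i + 3 : ℕ) : ℝ) = ((M + 1 : ℕ) : ℝ) + (j + 1) + 1 := by
      rw [Nat.cast_sub hi.le]
      push_cast
      ring
    rw [e1] at hg
    have e2 : (1 : ℝ) / (((j : ℝ) + i + 2) * ((j : ℝ) + i + 1))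
        = (1 / ((((M + 1 : ℕ) : ℝ) + (j + 1)) * (((M + 1 : ℕ) : ℝ) + j)))
          * ((((M + 1 : ℕ) : ℝ) + (j + 1) + 1 - 1) * (((M + 1 : ℕ) : ℝ) + (j + 1) + 1 - 2)
            / ((((j + i + 3 : ℕ) : ℝ) - 1) * (((j + i + 3 : ℕ) : ℝ) - 2))) := by
      have a1 : ((M + 1 : ℕ) : ℝ) + (j + 1) ≠ 0 := by positivity
      have a2 : ((M + 1 : ℕ) : ℝ) + j ≠ 0 := by positivity
      have a3 : (j : ℝ) + i + 2 ≠ 0 := by positivity
      have a4 : (j : ℝ) + i + 1 ≠ 0 := by positivity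
      have a5 : ((j + i + 3 : ℕ) : ℝ) - 1 = (j : ℝ) + i + 2 := by push_cast; ring
      have a6 : ((j + i + 3 : ℕ) : ℝ) - 2 = (j : ℝ) + i + 1 := by push_cast; ring
      have a7 : ((M + 1 : ℕ) : ℝ) + (j + 1) + 1 - 1 = ((M + 1 : ℕ) : ℝ) + (j + 1) := by ring
      have a8 : ((M + 1 : ℕ) : ℝ) + (j + 1) + 1 - 2 = ((M + 1 : ℕ) : ℝ) + j := by ring
      rw [a5, a6, a7, a8]
      field_simp
    rw [e2]
    exact hg.mul_left _
  have h2 := hasSum_sum (fun j hj => hasSum_sum (h1 j hj))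
  have e : (fun K : ℕ => ∑ j ∈ Finset.range J, ∑ i ∈ Finset.range M,
      ((j : ℝ) + 1) * om b (M + 1 + (j + 1)) * pq b (i + 1)
        * ((1 / ((((M + 1 : ℕ) : ℝ) + (j + 1)) * (((M + 1 : ℕ) : ℝ) + j)))
          * (((K : ℝ) + 1) * (rf ((M - i : ℕ) : ℝ) K / rf (((M + 1 : ℕ) : ℝ) + (j + 1) + 1) K))))
      = (fun K : ℕ => ((K : ℝ) + 1)
      * (∑ i ∈ Finset.range M, pq b (i + 1) * (rf ((M - i : ℕ) : ℝ) K / rf ((M : ℝ) + 1) K))
      * (∑ j ∈ Finset.range J, ((j : ℝ) + 1) * om b (M + 1 + (j + 1)) *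
        (rf ((M + 1 : ℕ) : ℝ) K / (((((M + 1 : ℕ) : ℝ) + (j + 1)) * (((M + 1 : ℕ) : ℝ) + j))
          * rf (((M + 1 : ℕ) : ℝ) + (j + 1) + 1) K)))) := by
    funext K
    rw [mul_assoc, Finset.sum_mul_sum, Finset.mul_sum, Finset.sum_comm]
    apply Finset.sum_congr rfl
    intro i _
    rw [Finset.mul_sum]
    apply Finset.sum_congr rfl
    intro j _
    have r1 : rf ((M : ℝ) + 1) K ≠ 0 := (rf_pos (by positivity) K).ne'
    have r2 : rf (((M + 1 : ℕ) : ℝ) + (j + 1) + 1) K ≠ 0 := (rf_pos (by positivity) K).ne'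
    have a1 : ((M + 1 : ℕ) : ℝ) + (j + 1) ≠ 0 := by positivity
    have a2 : ((M + 1 : ℕ) : ℝ) + j ≠ 0 := by positivity
    have e3 : rf ((M + 1 : ℕ) : ℝ) K = rf ((M : ℝ) + 1) K := by
      push_cast; rfl
    rw [e3]
    field_simp
  rw [e] at h2
  exact h2

theorem DS_le {b : ℝ} (hb : 0 < b) (hb1 : b ≤ 1) {X : ℝ}
    (hX : ∀ F : Finset ℕ, ∑ K ∈ F, ((K : ℝ) + 1) * (1 / pq (b + 1) K)
      * (1 / ((K + b) * (K + b + 1))) ≤ X) (M J : ℕ) :
    DS b M J ≤ (1 + 5 / (4 * ((M + 1 : ℕ) : ℝ))) * (1 + b / ((M + 1 : ℕ) : ℝ)) * (X / b) := by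
  refine hasSum_le_of_sum_le (DS_hasSum M J) (fun F => ?_)
  have hm' : (0 : ℝ) < ((M + 1 : ℕ) : ℝ) := by positivity
  have hpm := pq_pos' hb (M + 1)
  have hgM := pq_pos' (by linarith : 0 < b + 1) M
  have hsh := pq_shift b M
  have hterm : ∀ K ∈ F, ((K : ℝ) + 1)
      * (∑ i ∈ Finset.range M, pq b (i + 1) * (rf ((M - i : ℕ) : ℝ) K / rf ((M : ℝ) + 1) K))
      * (∑ j ∈ Finset.range J, ((j : ℝ) + 1) * om b (M + 1 + (j + 1)) *
        (rf ((M + 1 : ℕ) : ℝ) K / (((((M + 1 : ℕ) : ℝ) + (j + 1)) * (((M + 1 : ℕ) : ℝ) + j))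
          * rf (((M + 1 : ℕ) : ℝ) + (j + 1) + 1) K)))
      ≤ ((1 + 5 / (4 * ((M + 1 : ℕ) : ℝ))) * (1 + b / ((M + 1 : ℕ) : ℝ)) / b)
        * (((K : ℝ) + 1) * (1 / pq (b + 1) K) * (1 / ((K + b) * (K + b + 1)))) := by
    intro K _
    have h1 := isum_le hb hb1 M K
    have h2 := jsum_le hb hb1 (M + 1) (by omega) K J
    have hK0 : (0 : ℝ) ≤ K := Nat.cast_nonneg K
    have hgK := pq_pos' (by linarith : 0 < b + 1) K
    have h0 : 0 ≤ ∑ j ∈ Finset.range J, ((j : ℝ) + 1) * om b (M + 1 + (j + 1)) *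
        (rf ((M + 1 : ℕ) : ℝ) K / (((((M + 1 : ℕ) : ℝ) + (j + 1)) * (((M + 1 : ℕ) : ℝ) + j))
          * rf (((M + 1 : ℕ) : ℝ) + (j + 1) + 1) K)) := by
      apply Finset.sum_nonneg
      intro j _
      have := om_nonneg hb (M + 1 + (j + 1))
      have := rf_pos hm' K
      have := rf_pos (by positivity : 0 < ((M + 1 : ℕ) : ℝ) + (j + 1) + 1) K
      positivity
    have h3 : 0 ≤ pq (b + 1) M / pq (b + 1) K := by positivity
    calc _ ≤ ((K : ℝ) + 1) * (pq (b + 1) M / pq (b + 1) K)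
          * ((1 + 5 / (4 * ((M + 1 : ℕ) : ℝ))) * (1 + b / ((M + 1 : ℕ) : ℝ))
            * (1 / (((M + 1 : ℕ) : ℝ) * pq b (M + 1))) * (1 / ((K + b) * (K + b + 1)))) := by
          apply mul_le_mul _ h2 h0 (by positivity)
          apply mul_le_mul_of_nonneg_left h1 (by positivity)
      _ = _ := by
          have e1 : ((M + 1 : ℕ) : ℝ) * pq b (M + 1) = b * pq (b + 1) M := by
            push_cast
            exact hsh
          rw [e1]
          have := hgM.ne'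
          have := hgK.ne'
          have := hb.ne'
          field_simp
  refine (Finset.sum_le_sum hterm).trans ?_
  rw [← Finset.mul_sum]
  have h4 : 0 ≤ (1 + 5 / (4 * ((M + 1 : ℕ) : ℝ))) * (1 + b / ((M + 1 : ℕ) : ℝ)) / b := by positivity
  refine (mul_le_mul_of_nonneg_left (hX F) h4).trans (le_of_eq ?_)
  ring

/-! ### the numerical value -/

theorem num_bound (F : Finset ℕ) :
    ∑ K ∈ F, ((K : ℝ) + 1) * (1 / pq ((2 : ℝ) / 5 + 1) K)
      * (1 / ((K + 2 / 5) * (K + 2 / 5 + 1))) ≤ 389 / 100 := by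
  obtain ⟨h, hh⟩ : ∃ h : ℕ → ℝ, h = fun K => 1 / pq ((2 : ℝ) / 5 + 1) K := ⟨_, rfl⟩
  have hpos : ∀ K, 0 < h K := by
    intro K
    rw [hh]
    have := pq_pos' (by norm_num : (0 : ℝ) < 2 / 5 + 1) K
    positivity
  have hrec : ∀ K : ℕ, h (K + 1) = h K * ((K + 1) / (K + 1 + 2 / 5)) := by
    intro K
    rw [hh]
    simp only
    rw [pq_succ]
    have := (pq_pos' (by norm_num : (0 : ℝ) < 2 / 5 + 1) K).ne'
    have h1 : (2 : ℝ) / 5 + 1 + K ≠ 0 := by positivity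
    have h2 : (K : ℝ) + 1 + 2 / 5 ≠ 0 := by positivity
    field_simp
    ring
  have hterm : ∀ K : ℕ, ((K : ℝ) + 1) * (1 / pq ((2 : ℝ) / 5 + 1) K)
      * (1 / ((K + 2 / 5) * (K + 2 / 5 + 1))) = ((K : ℝ) + 1) * h K
      * (1 / ((K + 2 / 5) * (K + 2 / 5 + 1))) := by
    intro K
    rw [hh]
  have hnn : ∀ K : ℕ, 0 ≤ ((K : ℝ) + 1) * h K * (1 / ((K + 2 / 5) * (K + 2 / 5 + 1))) := by
    intro K
    have := hpos K
    positivity
  simp_rw [hterm]
  -- the tail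
  have htail : ∀ n : ℕ, ∑ K ∈ Finset.range (6 + n), ((K : ℝ) + 1) * h K
      * (1 / ((K + 2 / 5) * (K + 2 / 5 + 1)))
      ≤ ∑ K ∈ Finset.range 6, ((K : ℝ) + 1) * h K * (1 / ((K + 2 / 5) * (K + 2 / 5 + 1)))
        + 175 / 64 * (h 6 - h (6 + n)) := by
    intro n
    induction n with
    | zero => simp
    | succ n ih =>
      rw [← add_assoc, Finset.sum_range_succ]
      have h1 := hrec (6 + n)
      have hp := hpos (6 + n)
      rw [h1]
      push_cast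
      have hn : (0 : ℝ) ≤ n := Nat.cast_nonneg n
      have h2 : ((6 : ℝ) + n + 1) * h (6 + n) * (1 / ((6 + n + 2 / 5) * (6 + n + 2 / 5 + 1)))
          ≤ 175 / 64 * (h (6 + n) - h (6 + n) * ((6 + n + 1) / (6 + n + 1 + 2 / 5))) := by
        have e1 : h (6 + n) - h (6 + n) * (((6 : ℝ) + n + 1) / (6 + n + 1 + 2 / 5))
            = h (6 + n) * (2 / 5 / (6 + n + 1 + 2 / 5)) := by
          have : (6 : ℝ) + n + 1 + 2 / 5 ≠ 0 := by positivity
          field_simp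
          ring
        rw [e1]
        have e2 : ((6 : ℝ) + n + 1) * h (6 + n) * (1 / ((6 + n + 2 / 5) * (6 + n + 2 / 5 + 1)))
            = h (6 + n) * (((6 : ℝ) + n + 1) / ((6 + n + 2 / 5) * (6 + n + 2 / 5 + 1))) := by ring
        rw [e2, mul_left_comm]
        apply mul_le_mul_of_nonneg_left _ hp.le
        rw [← mul_div_assoc, div_le_div_iff₀ (by positivity) (by positivity)]
        nlinarith
      push_cast at ih
      linarith
  have h6 : ∑ K ∈ Finset.range 6, ((K : ℝ) + 1) * h K * (1 / ((K + 2 / 5) * (K + 2 / 5 + 1)))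
      + 175 / 64 * h 6 ≤ 389 / 100 := by
    have h00 : h 0 = 1 := by rw [hh]; simp [pq]
    have h01 : h 1 = 5 / 7 := by
      have := hrec 0; rw [h00] at this; norm_num at this; exact this
    have h02 : h 2 = 25 / 42 := by
      have := hrec 1; rw [h01] at this; norm_num at this; exact this
    have h03 : h 3 = 125 / 238 := by
      have := hrec 2; rw [h02] at this; norm_num at this; exact this
    have h04 : h 4 = 625 / 1309 := by
      have := hrec 3; rw [h03] at this; norm_num at this; exact this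
    have h05 : h 5 = 15625 / 35343 := by
      have := hrec 4; rw [h04] at this; norm_num at this; exact this
    have h06 : h 6 = 78125 / 188496 := by
      have := hrec 5; rw [h05] at this; norm_num at this; exact this
    simp only [Finset.sum_range_succ, Finset.sum_range_zero, h00, h01, h02, h03, h04, h05, h06]
    norm_num
  obtain ⟨N, hN⟩ : ∃ N : ℕ, F ⊆ Finset.range N := F.exists_nat_subset_range
  have h7 : F ⊆ Finset.range (6 + N) := by
    intro x hx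
    have := Finset.mem_range.mp (hN hx)
    rw [Finset.mem_range]
    omega
  have h8 := htail N
  have h9 := hpos (6 + N)
  calc ∑ K ∈ F, ((K : ℝ) + 1) * h K * (1 / ((K + 2 / 5) * (K + 2 / 5 + 1)))
      ≤ ∑ K ∈ Finset.range (6 + N), ((K : ℝ) + 1) * h K * (1 / ((K + 2 / 5) * (K + 2 / 5 + 1))) :=
        Finset.sum_le_sum_of_subset_of_nonneg h7 (fun K _ _ => hnn K)
    _ ≤ _ := by linarith

/-! ### Wallis -/

theorem wallis_eq (n : ℕ) : Real.Wallis.W n * (pq ((1 : ℝ) / 2) n ^ 2 * (2 * n + 1)) = 1 := by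
  induction n with
  | zero => simp [Real.Wallis.W, pq]
  | succ n ih =>
    rw [Real.Wallis.W_succ, pq_succ]
    have h1 : (2 : ℝ) * n + 1 ≠ 0 := by positivity
    have h2 : (2 : ℝ) * n + 3 ≠ 0 := by positivity
    have h3 : (n : ℝ) + 1 ≠ 0 := by positivity
    have e : Real.Wallis.W n * ((2 * n + 2) / (2 * n + 1) * ((2 * n + 2) / (2 * n + 3))) *
        ((pq ((1 : ℝ) / 2) n * ((1 / 2 + n) / (n + 1))) ^ 2 * (2 * ((n + 1 : ℕ) : ℝ) + 1))
        = Real.Wallis.W n * (pq ((1 : ℝ) / 2) n ^ 2 * (2 * n + 1)) := by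
      push_cast
      field_simp
      ring
    rw [e]
    exact ih

theorem half_sq_le (n : ℕ) :
    pq ((1 : ℝ) / 2) n ^ 2 ≤ 1 / Real.pi * ((n + 1) / ((n : ℝ) + 1 / 2) ^ 2) := by
  have h1 := wallis_eq n
  have h2 := Real.Wallis.le_W n
  have hp := pq_pos' (by norm_num : (0 : ℝ) < 1 / 2) n
  have hpi := Real.pi_pos
  have h3 : (2 * (n : ℝ) + 1) / (2 * n + 2) * (Real.pi / 2) * (pq ((1 : ℝ) / 2) n ^ 2 * (2 * n + 1)) ≤ 1 := by
    refine le_trans ?_ (le_of_eq h1)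
    apply mul_le_mul_of_nonneg_right h2
    positivity
  rw [div_mul_div_comm, one_mul, le_div_iff₀ (by positivity)]
  have h4 : (2 * (n : ℝ) + 1) / (2 * n + 2) * (Real.pi / 2) * (pq ((1 : ℝ) / 2) n ^ 2 * (2 * n + 1))
      = pq ((1 : ℝ) / 2) n ^ 2 * Real.pi * ((n : ℝ) + 1 / 2) ^ 2 / (n + 1) := by
    have h5 : (2 : ℝ) * n + 2 ≠ 0 := by positivity
    have h6 : (n : ℝ) + 1 ≠ 0 := by positivity
    field_simp
  rw [h4, div_le_one (by positivity)] at h3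
  rw [← mul_assoc]
  exact h3

theorem threehalf_eq (n : ℕ) : pq ((3 : ℝ) / 2) n = (2 * n + 1) * pq ((1 : ℝ) / 2) n := by
  have h := pq_add_one ((1 : ℝ) / 2) n
  have e : (1 : ℝ) / 2 + 1 = 3 / 2 := by norm_num
  rw [e] at h
  linarith

theorem threehalf_sq_le (n : ℕ) : pq ((3 : ℝ) / 2) n ^ 2 ≤ 4 / Real.pi * (n + 1) := by
  have h1 := half_sq_le n
  rw [threehalf_eq, mul_pow]
  have h2 : (2 * (n : ℝ) + 1) ^ 2 * pq ((1 : ℝ) / 2) n ^ 2
      ≤ (2 * (n : ℝ) + 1) ^ 2 * (1 / Real.pi * ((n + 1) / ((n : ℝ) + 1 / 2) ^ 2)) := by gcongr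
  refine h2.trans (le_of_eq ?_)
  have hpi := Real.pi_pos.ne'
  have h3 : (n : ℝ) + 1 / 2 ≠ 0 := by positivity
  field_simp
  ring

theorem negHalf_eq (n : ℕ) : ((n : ℝ) + 1) * pq (-((1 : ℝ) / 2)) (n + 1) = -(1 / 2) * pq ((1 : ℝ) / 2) n := by
  have h := pq_shift (-((1 : ℝ) / 2)) n
  have e : -((1 : ℝ) / 2) + 1 = 1 / 2 := by norm_num
  rw [e] at h
  exact h

/-- the coefficient of the upper part -/
theorem negHalf_sq_le (n : ℕ) :
    (((n : ℝ) + 1) * pq (-((1 : ℝ) / 2)) (n + 1)) ^ 2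
      ≤ 1 / (4 * Real.pi) * ((n + 1) / ((n : ℝ) + 1 / 2) ^ 2) := by
  rw [negHalf_eq, mul_pow]
  have h := half_sq_le n
  have hpi := Real.pi_pos
  calc (-(1 / 2 : ℝ)) ^ 2 * pq ((1 : ℝ) / 2) n ^ 2
      ≤ (-(1 / 2 : ℝ)) ^ 2 * (1 / Real.pi * ((n + 1) / ((n : ℝ) + 1 / 2) ^ 2)) := by gcongr
    _ = _ := by
      field_simp
      ring

end Pool.Agent.Helper86.CJ
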