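import Mathlib
import Pool.Agent.Helper86.CJ.HS

/-!
MP_16b0ee, project CJ: the part beyond the palindrome is controlled by the part before.
-/

set_option autoImplicit false

open Filter Topology

namespace Pool.Agent.Helper86.CJ

open Pool.Agent.Helper22.Half (pq pq_zero pq_succ pq_succ' pq_shift pq_add_one pq_one vander
  Ac conv_one partial_frac sum_tri Vd g_formula)

/-- partial fractions, second form -/
theorem partial_frac2 (s : ℂ) (p : ℕ) (hs : ∀ k : ℕ, ((p + k : ℕ) : ℂ) - s ≠ 0) (M : ℕ) :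
    pq (-s) p = ((p + (M + 1) : ℕ) : ℂ) * pq (-s) (p + (M + 1)) *
      ∑ k ∈ Finset.range (M + 1), pq (1 + s) (M - k) * pq (-s) k / (((p + k : ℕ) : ℂ) - s) := by
  have h := partial_frac s p hs (M + 1)
  have hterm : ∀ k ∈ Finset.range (M + 1), Ac s (M + 1) k / (((p + k : ℕ) : ℂ) - s)
      = ((p + (M + 1) : ℕ) : ℂ) * (pq (1 + s) (M - k) * pq (-s) k / (((p + k : ℕ) : ℂ) - s))
        - pq (1 + s) (M - k) * pq (-s) k := by
    intro k hk
    rw [Finset.mem_range] at hk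
    have hne := hs k
    unfold Ac
    have e1 : M + 1 - k = (M - k) + 1 := by omega
    rw [e1]
    have h2 := pq_succ' (1 + s) (M - k)
    have e2 : ((p + (M + 1) : ℕ) : ℂ) = ((p + k : ℕ) : ℂ) + (((M - k : ℕ) : ℂ) + 1) := by
      have : p + (M + 1) = (p + k) + ((M - k) + 1) := by omega
      rw [this]
      push_cast
      ring
    rw [e2]
    push_cast at h2 ⊢
    push_cast at hne
    field_simp
    linear_combination (pq (-s) k) * h2
  rw [Finset.sum_congr rfl hterm, Finset.sum_sub_distrib, conv_one, ← Finset.mul_sum] at h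
  rw [h]
  ring

/-- the mirrored formula -/
theorem mirror (s : ℂ) (d : ℕ → ℂ) (M j : ℕ) (hd : ∀ l ≤ M + 1, d l = d (M + 1 - l))
    (hd0 : d 0 = 0) (hs : ∀ k : ℕ, ((j + k : ℕ) : ℂ) - s ≠ 0) :
    Vd s d (M + 1) (M + 1 + j) = ((M + 1 + j : ℕ) : ℂ) * pq (-s) (M + 1 + j)
      * ∑ i ∈ Finset.range (M + 1), pq (1 + s) (M - i) * Vd s d (M + 1) i
        / (((j + i : ℕ) : ℂ) - s) := by
  have hdm : d (M + 1) = 0 := by
    rw [hd (M + 1) le_rfl, Nat.sub_self, hd0]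
  have h1 : Vd s d (M + 1) (M + 1 + j) = ∑ l ∈ Finset.range (M + 1 + 1), pq (-s) (j + l) * d l := by
    unfold Vd
    have e : min (M + 1 + j) (M + 1) = M + 1 := by omega
    rw [e, ← Finset.sum_range_reflect]
    apply Finset.sum_congr rfl
    intro l hl
    rw [Finset.mem_range] at hl
    have e1 : M + 1 + 1 - 1 - l = M + 1 - l := by omega
    have e2 : M + 1 + j - (M + 1 - l) = j + l := by omega
    rw [e1, e2, ← hd l (by omega)]
  have h2 : ∀ l ∈ Finset.range (M + 1 + 1), pq (-s) (j + l) * d l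
      = (((M + 1 + j : ℕ) : ℂ) * pq (-s) (M + 1 + j)) * ∑ k ∈ Finset.range (M + 1 - l),
        pq (1 + s) (M - (l + k)) * pq (-s) (l + k - l) * d l / (((j + (l + k) : ℕ) : ℂ) - s) := by
    intro l hl
    rw [Finset.mem_range] at hl
    rcases Nat.lt_or_ge l (M + 1) with hlt | hge
    · obtain ⟨r, hr⟩ : ∃ r, M = l + r := ⟨M - l, by omega⟩
      have e1 : M + 1 - l = r + 1 := by omega
      have h3 := partial_frac2 s (j + l) (fun k => by
        have := hs (l + k)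
        rwa [← add_assoc] at this) r
      have e2 : j + l + (r + 1) = M + 1 + j := by omega
      rw [e2] at h3
      rw [e1, h3, mul_assoc, Finset.sum_mul]
      congr 1
      apply Finset.sum_congr rfl
      intro k hk
      rw [Finset.mem_range] at hk
      have e3 : M - (l + k) = r - k := by omega
      have e4 : l + k - l = k := by omega
      rw [e3, e4, add_assoc]
      ring
    · have : l = M + 1 := by omega
      subst this
      rw [hdm, Nat.sub_self, Finset.range_zero, Finset.sum_empty]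
      ring
  rw [h1, Finset.sum_congr rfl h2, ← Finset.mul_sum]
  congr 1
  have h5 := sum_tri (fun l i => pq (1 + s) (M - i) * pq (-s) (i - l) * d l
    / (((j + i : ℕ) : ℂ) - s)) (M + 1)
  rw [h5]
  apply Finset.sum_congr rfl
  intro i hi
  rw [Finset.mem_range] at hi
  unfold Vd
  have e : min i (M + 1) = i := by omega
  rw [e, Finset.mul_sum, Finset.sum_div]
  apply Finset.sum_congr rfl
  intro l _
  ring

theorem pq_ofReal (b : ℝ) (n : ℕ) : pq (b : ℂ) n = ((pq b n : ℝ) : ℂ) := by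
  induction n with
  | zero => simp [pq]
  | succ n ih =>
    rw [pq_succ, pq_succ, ih]
    push_cast
    ring

theorem Vd_zero (s : ℂ) (d : ℕ → ℂ) (m : ℕ) : Vd s d m 0 = d 0 := by
  unfold Vd
  simp [pq]

/-- the lower form -/
noncomputable def Pg (b : ℝ) (d : ℕ → ℂ) (m : ℕ) : ℝ :=
  ∑ i ∈ Finset.range m, ((m - i : ℕ) : ℝ) * (pq b i)⁻¹ * ‖Vd (1 / 2) d m i‖ ^ 2

theorem Pg_nonneg {b : ℝ} (hb : 0 < b) (d : ℕ → ℂ) (m : ℕ) : 0 ≤ Pg b d m := by
  apply Finset.sum_nonneg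
  intro i _
  have := pq_pos' hb i
  positivity

/-- Cauchy-Schwarz for one index -/
theorem cs_one {b : ℝ} (hb : 0 < b) {d : ℕ → ℂ} {M : ℕ}
    (hd : ∀ l ≤ M + 1, d l = d (M + 1 - l)) (hd0 : d 0 = 0) (j : ℕ) :
    ‖Vd (1 / 2) d (M + 1) (M + 1 + (j + 1))‖ ^ 2
      ≤ 1 / Real.pi ^ 2 * ((((M + 1 + (j + 1) : ℕ) : ℝ)) / (((M + 1 + (j + 1) : ℕ) : ℝ) - 1 / 2) ^ 2)
        * (∑ i ∈ Finset.range M, pq b (i + 1) * (1 / (((j : ℝ) + i + 2) * ((j : ℝ) + i + 1))))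
        * Pg b d (M + 1) := by
  have hpi := Real.pi_pos
  have hs : ∀ k : ℕ, ((j + 1 + k : ℕ) : ℂ) - 1 / 2 ≠ 0 := by
    intro k h
    have h2 : (((2 * (j + 1 + k) : ℕ) : ℂ)) = ((1 : ℕ) : ℂ) := by
      push_cast at h ⊢
      linear_combination 2 * h
    have h3 : 2 * (j + 1 + k) = 1 := by exact_mod_cast h2
    omega
  have hmir := mirror (1 / 2) d M (j + 1) hd hd0 hs
  rw [hmir, Finset.sum_range_succ', Vd_zero, hd0, mul_zero, zero_div, add_zero, norm_mul, mul_pow]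
  -- the prefactor
  have hpre : ‖((M + 1 + (j + 1) : ℕ) : ℂ) * pq (-(1 / 2 : ℂ)) (M + 1 + (j + 1))‖ ^ 2
      ≤ 1 / (4 * Real.pi) * ((((M + 1 + (j + 1) : ℕ) : ℝ))
        / (((M + 1 + (j + 1) : ℕ) : ℝ) - 1 / 2) ^ 2) := by
    have h1 := negHalf_sq_le (M + 1 + j)
    have e1 : (-(1 / 2 : ℂ)) = ((-((1 : ℝ) / 2) : ℝ) : ℂ) := by push_cast; ring
    have e2 : M + 1 + (j + 1) = M + 1 + j + 1 := by ring
    rw [e1, pq_ofReal, e2, norm_mul, Complex.norm_natCast, Complex.norm_real, mul_pow,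
      Real.norm_eq_abs, sq_abs, ← mul_pow]
    push_cast at h1 ⊢
    have e3 : (M : ℝ) + 1 + j + 1 - 1 / 2 = (M : ℝ) + 1 + j + 1 / 2 := by ring
    rw [e3]
    exact h1
  -- Cauchy-Schwarz
  have hn : ‖∑ i ∈ Finset.range M, pq (1 + (1 / 2 : ℂ)) (M - (i + 1)) * Vd (1 / 2) d (M + 1) (i + 1)
        / (((j + 1 + (i + 1) : ℕ) : ℂ) - 1 / 2)‖
      ≤ ∑ i ∈ Finset.range M, pq ((3 : ℝ) / 2) (M - (i + 1)) * ‖Vd (1 / 2) d (M + 1) (i + 1)‖
        / ((j : ℝ) + i + 3 / 2) := by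
    refine (norm_sum_le _ _).trans (le_of_eq ?_)
    apply Finset.sum_congr rfl
    intro i _
    have e1 : (1 + (1 / 2 : ℂ)) = (((3 : ℝ) / 2 : ℝ) : ℂ) := by push_cast; ring
    have e2 : ((j + 1 + (i + 1) : ℕ) : ℂ) - 1 / 2 = (((j : ℝ) + i + 3 / 2 : ℝ) : ℂ) := by
      push_cast; ring
    rw [e1, pq_ofReal, e2, norm_div, norm_mul, Complex.norm_real, Complex.norm_real,
      Real.norm_of_nonneg (pq_pos' (by norm_num) _).le,
      Real.norm_of_nonneg (by positivity : (0 : ℝ) ≤ (j : ℝ) + i + 3 / 2)]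
  have hcs := Finset.sum_sq_le_sum_mul_sum_of_sq_le_mul (Finset.range M)
    (r := fun i => pq ((3 : ℝ) / 2) (M - (i + 1)) * ‖Vd (1 / 2) d (M + 1) (i + 1)‖
        / ((j : ℝ) + i + 3 / 2))
    (f := fun i => 4 / Real.pi * (pq b (i + 1) * (1 / (((j : ℝ) + i + 2) * ((j : ℝ) + i + 1)))))
    (g := fun i => ((M + 1 - (i + 1) : ℕ) : ℝ) * (pq b (i + 1))⁻¹
      * ‖Vd (1 / 2) d (M + 1) (i + 1)‖ ^ 2)
    (fun i _ => by have := pq_pos' hb (i + 1); positivity)
    (fun i _ => by have := pq_pos' hb (i + 1); positivity)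
    (fun i hi => by
      rw [Finset.mem_range] at hi
      have hp := pq_pos' hb (i + 1)
      have h1 := threehalf_sq_le (M - (i + 1))
      have e1 : ((M - (i + 1) : ℕ) : ℝ) + 1 = ((M + 1 - (i + 1) : ℕ) : ℝ) := by
        rw [← Nat.cast_add_one]; congr 1; omega
      rw [e1] at h1
      have h2 : (1 : ℝ) / ((j : ℝ) + i + 3 / 2) ^ 2
          ≤ 1 / (((j : ℝ) + i + 2) * ((j : ℝ) + i + 1)) := by
        apply one_div_le_one_div_of_le (by positivity)
        nlinarith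
      calc (pq ((3 : ℝ) / 2) (M - (i + 1)) * ‖Vd (1 / 2) d (M + 1) (i + 1)‖
            / ((j : ℝ) + i + 3 / 2)) ^ 2
          = pq ((3 : ℝ) / 2) (M - (i + 1)) ^ 2 * ‖Vd (1 / 2) d (M + 1) (i + 1)‖ ^ 2
            * (1 / ((j : ℝ) + i + 3 / 2) ^ 2) := by
            rw [div_pow, mul_pow]; ring
        _ ≤ (4 / Real.pi * ((M + 1 - (i + 1) : ℕ) : ℝ)) * ‖Vd (1 / 2) d (M + 1) (i + 1)‖ ^ 2
            * (1 / (((j : ℝ) + i + 2) * ((j : ℝ) + i + 1))) := by
            apply mul_le_mul _ h2 (by positivity) (by positivity)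
            apply mul_le_mul_of_nonneg_right h1 (by positivity)
        _ = _ := by
            have := hp.ne'
            field_simp)
  have hP : ∑ i ∈ Finset.range M, ((M + 1 - (i + 1) : ℕ) : ℝ) * (pq b (i + 1))⁻¹
      * ‖Vd (1 / 2) d (M + 1) (i + 1)‖ ^ 2 ≤ Pg b d (M + 1) := by
    unfold Pg
    rw [Finset.sum_range_succ' _ M]
    have h0 : (0 : ℝ) ≤ ((M + 1 - 0 : ℕ) : ℝ) * (pq b 0)⁻¹ * ‖Vd (1 / 2) d (M + 1) 0‖ ^ 2 := by
      have := pq_pos' hb 0
      positivity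
    linarith
  have hS0 : 0 ≤ ∑ i ∈ Finset.range M, pq b (i + 1)
      * (1 / (((j : ℝ) + i + 2) * ((j : ℝ) + i + 1))) := by
    apply Finset.sum_nonneg
    intro i _
    have := pq_pos' hb (i + 1)
    positivity
  have h3 : ‖∑ i ∈ Finset.range M, pq (1 + (1 / 2 : ℂ)) (M - (i + 1)) * Vd (1 / 2) d (M + 1) (i + 1)
        / (((j + 1 + (i + 1) : ℕ) : ℂ) - 1 / 2)‖ ^ 2
      ≤ (4 / Real.pi * ∑ i ∈ Finset.range M, pq b (i + 1)
        * (1 / (((j : ℝ) + i + 2) * ((j : ℝ) + i + 1)))) * Pg b d (M + 1) := by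
    refine (pow_le_pow_left₀ (norm_nonneg _) hn 2).trans (hcs.trans ?_)
    rw [← Finset.mul_sum]
    apply mul_le_mul_of_nonneg_left hP
    positivity
  have hpre0 : 0 ≤ 1 / (4 * Real.pi) * ((((M + 1 + (j + 1) : ℕ) : ℝ))
        / (((M + 1 + (j + 1) : ℕ) : ℝ) - 1 / 2) ^ 2) := by positivity
  calc _ ≤ (1 / (4 * Real.pi) * ((((M + 1 + (j + 1) : ℕ) : ℝ))
        / (((M + 1 + (j + 1) : ℕ) : ℝ) - 1 / 2) ^ 2)) * ((4 / Real.pi * ∑ i ∈ Finset.range M,
        pq b (i + 1) * (1 / (((j : ℝ) + i + 2) * ((j : ℝ) + i + 1)))) * Pg b d (M + 1)) := by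
        apply mul_le_mul hpre h3 (by positivity) hpre0
    _ = _ := by
        field_simp

/-- the upper part is controlled by the lower part -/
theorem cs_upper {b : ℝ} (hb : 0 < b) {d : ℕ → ℂ} {M : ℕ}
    (hd : ∀ l ≤ M + 1, d l = d (M + 1 - l)) (hd0 : d 0 = 0) (J : ℕ) :
    ∑ j ∈ Finset.range J, ((j : ℝ) + 1) * (pq b (M + 1 + (j + 1)))⁻¹
        * ‖Vd (1 / 2) d (M + 1) (M + 1 + (j + 1))‖ ^ 2
      ≤ (1 / Real.pi ^ 2 * DS b M J) * Pg b d (M + 1) := by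
  unfold DS
  rw [Finset.mul_sum, Finset.sum_mul]
  apply Finset.sum_le_sum
  intro j _
  have h := cs_one hb hd hd0 j
  have hp := pq_pos' hb (M + 1 + (j + 1))
  have h0 : 0 ≤ ((j : ℝ) + 1) * (pq b (M + 1 + (j + 1)))⁻¹ := by positivity
  refine (mul_le_mul_of_nonneg_left h h0).trans (le_of_eq ?_)
  have e : ∑ i ∈ Finset.range M, ((j : ℝ) + 1) * om b (M + 1 + (j + 1)) * pq b (i + 1)
      * (1 / (((j : ℝ) + i + 2) * ((j : ℝ) + i + 1)))
      = ((j : ℝ) + 1) * om b (M + 1 + (j + 1)) * ∑ i ∈ Finset.range M, pq b (i + 1)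
        * (1 / (((j : ℝ) + i + 2) * ((j : ℝ) + i + 1))) := by
    rw [Finset.mul_sum]
    apply Finset.sum_congr rfl
    intro i _
    ring
  rw [e]
  unfold om
  have hpi := Real.pi_pos.ne'
  have h1 : ((M + 1 + (j + 1) : ℕ) : ℝ) - 1 / 2 ≠ 0 := by
    have : (0 : ℝ) < ((M + 1 + (j + 1) : ℕ) : ℝ) - 1 / 2 := by
      push_cast
      have : (0 : ℝ) ≤ M := Nat.cast_nonneg M
      have : (0 : ℝ) ≤ j := Nat.cast_nonneg j
      linarith
    exact this.ne'
  have h2 := hp.ne'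
  field_simp

/-- the ratio is eventually below one -/
theorem DS_eventually (M J : ℕ) (hM : 400 ≤ M) :
    1 / Real.pi ^ 2 * DS (2 / 5) M J ≤ 1 - 1 / 200 := by
  have h1 := DS_le (b := 2 / 5) (by norm_num) (by norm_num) num_bound M J
  have hm : (400 : ℝ) ≤ ((M + 1 : ℕ) : ℝ) := by
    have : 400 ≤ M + 1 := by omega
    exact_mod_cast this
  have hpi : (9.869 : ℝ) < Real.pi ^ 2 := by
    have := Real.pi_gt_d4
    nlinarith
  have h2 : (1 + 5 / (4 * ((M + 1 : ℕ) : ℝ))) * (1 + 2 / 5 / ((M + 1 : ℕ) : ℝ))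
      ≤ (1 + 5 / 1600) * (1 + 2 / 5 / 400) := by
    have a1 : 5 / (4 * ((M + 1 : ℕ) : ℝ)) ≤ 5 / 1600 := by
      apply div_le_div_of_nonneg_left (by norm_num) (by norm_num)
      linarith
    have a2 : 2 / 5 / ((M + 1 : ℕ) : ℝ) ≤ 2 / 5 / 400 := by
      apply div_le_div_of_nonneg_left (by norm_num) (by norm_num) hm
    gcongr
  have h3 : DS (2 / 5) M J ≤ (1 + 5 / 1600) * (1 + 2 / 5 / 400) * (389 / 100 / (2 / 5)) := by
    refine h1.trans ?_
    gcongr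
  rw [one_div, inv_mul_le_iff₀ (by positivity)]
  refine h3.trans ?_
  calc ((1 : ℝ) + 5 / 1600) * (1 + 2 / 5 / 400) * (389 / 100 / (2 / 5)) ≤ 9.869 * (1 - 1 / 200) := by
        norm_num
    _ ≤ _ := by
        apply mul_le_mul_of_nonneg_right hpi.le (by norm_num)

theorem DS_crude (M J : ℕ) : 1 / Real.pi ^ 2 * DS (2 / 5) M J ≤ 4 := by
  have h1 := DS_le (b := 2 / 5) (by norm_num) (by norm_num) num_bound M J
  have hm : (1 : ℝ) ≤ ((M + 1 : ℕ) : ℝ) := by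
    have : 1 ≤ M + 1 := by omega
    exact_mod_cast this
  have hpi : (9.869 : ℝ) < Real.pi ^ 2 := by
    have := Real.pi_gt_d4
    nlinarith
  have a1 : 5 / (4 * ((M + 1 : ℕ) : ℝ)) ≤ 5 / 4 := by
    apply div_le_div_of_nonneg_left (by norm_num) (by norm_num)
    linarith
  have a2 : 2 / 5 / ((M + 1 : ℕ) : ℝ) ≤ 2 / 5 := by
    apply div_le_self (by norm_num) hm
  have h3 : DS (2 / 5) M J ≤ (1 + 5 / 4) * (1 + 2 / 5) * (389 / 100 / (2 / 5)) := by
    refine h1.trans ?_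
    gcongr
  rw [one_div, inv_mul_le_iff₀ (by positivity)]
  refine h3.trans ?_
  calc ((1 : ℝ) + 5 / 4) * (1 + 2 / 5) * (389 / 100 / (2 / 5)) ≤ 9.869 * 4 := by norm_num
    _ ≤ _ := by
        apply mul_le_mul_of_nonneg_right hpi.le (by norm_num)

end Pool.Agent.Helper86.CJ
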