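import Mathlib
import Pool.Agent.Helper86.CJ.Area
import Pool.Agent.Helper86.CJ.Closing
import Pool.Agent.Helper86.CJ.Upper

/-!
MP_16b0ee, project CJ: growth of the mean of the derivative.
-/

set_option autoImplicit false

open MeasureTheory Set Metric Filter Topology
open scoped ENNReal NNReal Real Nat ComplexConjugate

namespace Pool.Agent.Helper86.CJ

open Pool.Agent.Helper39.Area (Ext phi)
open Pool.Agent.Helper22.Marshall (coeff SepHol LogPhi dcoeff GLe coeff_congr parseval_comb gLe_one)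
open Pool.Agent.Helper22.Half (pq pq_zero pq_succ pq_succ' pq_shift pq_add_one pq_one pq_two vander
  Vd g_formula)

theorem pq_three (n : ℕ) : pq (3 : ℝ) n = ((n : ℝ) + 1) * (n + 2) / 2 := by
  have h := pq_add_one (2 : ℝ) n
  rw [pq_two] at h
  have e : (2 : ℝ) + 1 = 3 := by norm_num
  rw [e] at h
  linarith

/-- the lower part controls the sum of the palindrome -/
theorem cs_lower {b : ℝ} (hb : 0 < b) {d : ℕ → ℂ} {m : ℕ} (hm : 1 ≤ m)
    (hd : ∀ l ≤ m, d l = d (m - l)) :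
    (m : ℝ) ^ 2 * ‖∑ l ∈ Finset.range (m + 1), d l‖ ^ 2
      ≤ 5 * pq (b + 3) (m - 1) * Pg b d m := by
  have hg := g_formula (1 / 2) d m hd
  have hpi := Real.pi_pos
  have hcs := Finset.sum_sq_le_sum_mul_sum_of_sq_le_mul (Finset.range m)
    (r := fun i => ((m - i : ℕ) : ℝ) * pq ((3 : ℝ) / 2) (m - i) * ‖Vd (1 / 2) d m i‖)
    (f := fun i => 8 / Real.pi * (pq b i * pq (3 : ℝ) (m - 1 - i)))
    (g := fun i => ((m - i : ℕ) : ℝ) * (pq b i)⁻¹ * ‖Vd (1 / 2) d m i‖ ^ 2)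
    (fun i _ => by
      have := pq_pos' hb i
      have := pq_pos' (by norm_num : (0 : ℝ) < 3) (m - 1 - i)
      positivity)
    (fun i _ => by have := pq_pos' hb i; positivity)
    (fun i hi => by
      rw [Finset.mem_range] at hi
      have hp := pq_pos' hb i
      have h1 := threehalf_sq_le (m - i)
      have e1 : pq (3 : ℝ) (m - 1 - i) = ((m - i : ℕ) : ℝ) * (((m - i : ℕ) : ℝ) + 1) / 2 := by
        rw [pq_three]
        have : ((m - i : ℕ) : ℝ) = ((m - 1 - i : ℕ) : ℝ) + 1 := by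
          rw [← Nat.cast_add_one]; congr 1; omega
        rw [this]
        ring
      have h0 : (0 : ℝ) ≤ ((m - i : ℕ) : ℝ) := Nat.cast_nonneg _
      rw [e1]
      calc (((m - i : ℕ) : ℝ) * pq ((3 : ℝ) / 2) (m - i) * ‖Vd (1 / 2) d m i‖) ^ 2
          = pq ((3 : ℝ) / 2) (m - i) ^ 2 * (((m - i : ℕ) : ℝ) ^ 2 * ‖Vd (1 / 2) d m i‖ ^ 2) := by
            ring
        _ ≤ (4 / Real.pi * (((m - i : ℕ) : ℝ) + 1)) * (((m - i : ℕ) : ℝ) ^ 2
            * ‖Vd (1 / 2) d m i‖ ^ 2) := by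
            apply mul_le_mul_of_nonneg_right h1 (by positivity)
        _ = _ := by
            have := hp.ne'
            field_simp
            ring)
  have hn : ‖(1 + (1 / 2 : ℂ)) * (m * ∑ l ∈ Finset.range (m + 1), d l) / 2‖
      ≤ ∑ i ∈ Finset.range m, ((m - i : ℕ) : ℝ) * pq ((3 : ℝ) / 2) (m - i) * ‖Vd (1 / 2) d m i‖ := by
    rw [hg]
    refine (norm_sum_le _ _).trans (le_of_eq ?_)
    apply Finset.sum_congr rfl
    intro i _
    have e1 : (1 + (1 / 2 : ℂ)) = (((3 : ℝ) / 2 : ℝ) : ℂ) := by push_cast; ring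
    rw [norm_mul, norm_mul, e1, pq_ofReal, Complex.norm_natCast, Complex.norm_real,
      Real.norm_of_nonneg (pq_pos' (by norm_num) _).le]
  have hsum : ∑ i ∈ Finset.range m, 8 / Real.pi * (pq b i * pq (3 : ℝ) (m - 1 - i))
      = 8 / Real.pi * pq (b + 3) (m - 1) := by
    rw [← Finset.mul_sum]
    congr 1
    have h := vander b (3 : ℝ) (m - 1)
    have e : m - 1 + 1 = m := by omega
    rw [e] at h
    exact h
  have hP := Pg_nonneg hb d m
  have h3 : ‖(1 + (1 / 2 : ℂ)) * (m * ∑ l ∈ Finset.range (m + 1), d l) / 2‖ ^ 2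
      = 9 / 16 * ((m : ℝ) ^ 2 * ‖∑ l ∈ Finset.range (m + 1), d l‖ ^ 2) := by
    have e1 : (1 + (1 / 2 : ℂ)) = (((3 : ℝ) / 2 : ℝ) : ℂ) := by push_cast; ring
    rw [norm_div, norm_mul, norm_mul, Complex.norm_natCast, Complex.norm_two, e1,
      Complex.norm_real, Real.norm_of_nonneg (by norm_num)]
    ring
  have h4 := (pow_le_pow_left₀ (norm_nonneg _) hn 2).trans hcs
  rw [hsum, h3] at h4
  have hpq := pq_pos' (by linarith : 0 < b + 3) (m - 1)
  have h5 : 8 / Real.pi ≤ 5 * (9 / 16) := by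
    rw [div_le_iff₀ hpi]
    have := Real.pi_gt_three
    linarith
  have h6 : 8 / Real.pi * pq (b + 3) (m - 1) * Pg b d m
      ≤ 5 * (9 / 16) * pq (b + 3) (m - 1) * Pg b d m := by gcongr
  unfold Pg at h6 ⊢
  linarith

/-- the case of a constant -/
theorem zero_le {b : ℝ} (hb : 0 < b) {d : ℕ → ℂ} (hd0 : d 0 = 1) (J : ℕ) :
    ∑ j ∈ Finset.range J, ((j : ℝ) + 1) * (pq b (0 + 1 + j))⁻¹
        * ‖Vd (1 / 2) d 0 (0 + 1 + j)‖ ^ 2 ≤ (1 + b) / b ^ 2 := by
  have hV : ∀ i, Vd (1 / 2) d 0 i = pq (-(1 / 2 : ℂ)) i := by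
    intro i
    unfold Vd
    simp [hd0]
  obtain ⟨g, hg⟩ : ∃ g : ℕ → ℝ, g = fun (j : ℕ) => (((j : ℝ) + 1) * pq b (j + 1))⁻¹ := ⟨_, rfl⟩
  have hgpos : ∀ j, 0 < g j := by
    intro j
    rw [hg]
    have := pq_pos' hb (j + 1)
    positivity
  have hgrec : ∀ j, g (j + 1) = g j * (((j : ℝ) + 1) / (j + 1 + b)) := by
    intro j
    rw [hg]
    simp only
    have h1 := pq_succ' b (j + 1)
    have h2 := (pq_pos' hb (j + 1)).ne'
    have h3 := (pq_pos' hb (j + 1 + 1)).ne'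
    have h4 : (j : ℝ) + 1 + b ≠ 0 := by positivity
    push_cast at h1 ⊢
    rw [h1]
    have h5 : b + ((j : ℝ) + 1) ≠ 0 := by positivity
    field_simp
    ring
  have hterm : ∀ j ∈ Finset.range J, ((j : ℝ) + 1) * (pq b (0 + 1 + j))⁻¹
        * ‖Vd (1 / 2) d 0 (0 + 1 + j)‖ ^ 2 ≤ (1 + b) / b * (g j - g (j + 1)) := by
    intro j _
    have e0 : 0 + 1 + j = j + 1 := by ring
    have e1 : (-(1 / 2 : ℂ)) = ((-((1 : ℝ) / 2) : ℝ) : ℂ) := by push_cast; ring
    have hj : (0 : ℝ) ≤ j := Nat.cast_nonneg j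
    rw [hV, e0, e1, pq_ofReal, Complex.norm_real, Real.norm_eq_abs, sq_abs, hgrec]
    have h1 := negHalf_eq j
    have hsq : pq ((1 : ℝ) / 2) j ^ 2 ≤ 1 / ((j : ℝ) + 1) := by
      induction j with
      | zero => simp [pq]
      | succ j ih =>
        rw [pq_succ, mul_pow]
        have h2 : pq ((1 : ℝ) / 2) j ^ 2 ≤ 1 / ((j : ℝ) + 1) := by
          apply ih
          · exact Finset.mem_range.mpr (by
              have := Finset.mem_range.mp ‹_›
              omega)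
          · ring
          · exact Nat.cast_nonneg j
          · exact negHalf_eq j
        have hj' : (0 : ℝ) ≤ j := Nat.cast_nonneg j
        calc pq ((1 : ℝ) / 2) j ^ 2 * ((1 / 2 + j) / (j + 1)) ^ 2
            ≤ 1 / ((j : ℝ) + 1) * ((1 / 2 + j) / (j + 1)) ^ 2 := by gcongr
          _ ≤ 1 / (((j + 1 : ℕ) : ℝ) + 1) := by
              push_cast
              rw [div_pow, div_mul_div_comm, one_mul, div_le_div_iff₀ (by positivity) (by positivity)]
              nlinarith [sq_nonneg ((j : ℝ))]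
    have hp := pq_pos' hb (j + 1)
    have e2 : ((j : ℝ) + 1) * (pq b (j + 1))⁻¹ * pq (-((1 : ℝ) / 2)) (j + 1) ^ 2
        = g j * (((j : ℝ) + 1) * pq (-((1 : ℝ) / 2)) (j + 1)) ^ 2 := by
      rw [hg]
      have h4 := hp.ne'
      have h5 : (j : ℝ) + 1 ≠ 0 := by positivity
      field_simp
    rw [e2, h1, mul_pow]
    have e3 : g j - g j * (((j : ℝ) + 1) / (j + 1 + b)) = g j * (b / (j + 1 + b)) := by
      have : (j : ℝ) + 1 + b ≠ 0 := by positivity
      field_simp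
      ring
    rw [e3]
    have hgj := hgpos j
    calc g j * ((-(1 / 2 : ℝ)) ^ 2 * pq ((1 : ℝ) / 2) j ^ 2)
        ≤ g j * ((-(1 / 2 : ℝ)) ^ 2 * (1 / ((j : ℝ) + 1))) := by gcongr
      _ ≤ g j * ((1 + b) / b * (b / (j + 1 + b))) := by
          apply mul_le_mul_of_nonneg_left _ hgj.le
          have e4 : (1 + b) / b * (b / ((j : ℝ) + 1 + b)) = (1 + b) / (j + 1 + b) := by
            have := hb.ne'
            have : (j : ℝ) + 1 + b ≠ 0 := by positivity
            field_simp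
          rw [e4, mul_one_div, div_le_div_iff₀ (by positivity) (by positivity)]
          nlinarith
      _ = _ := by ring
  refine (Finset.sum_le_sum hterm).trans ?_
  rw [← Finset.mul_sum, Finset.sum_range_sub']
  have h0 : g 0 = 1 / b := by
    rw [hg]
    simp [pq]
  rw [h0]
  have := hgpos J
  have h1 : (1 + b) / b * (1 / b - g J) ≤ (1 + b) / b * (1 / b) := by
    apply mul_le_mul_of_nonneg_left _ (by positivity)
    linarith
  refine h1.trans (le_of_eq ?_)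
  field_simp

/-- the sum of the lower forms is bounded uniformly -/
theorem sum_Pg_le : ∃ C : ℝ, 0 ≤ C ∧
    ∀ (β H : ℂ → ℂ) (Φ : ℂ → ℂ → ℂ), Ext β → LogPhi β H Φ → ∀ I : ℕ,
    ∑ m ∈ Finset.range I, Pg (2 / 5) (diagc (EE Φ (1 / 2)) m) m ≤ C := by
  refine ⟨((1 + 2 / 5) / (2 / 5) ^ 2 + 4 * Kc ((1 + 2 / 5) / (2 / 5) ^ 2) 4 401) / (1 / 200), ?_, ?_⟩
  · have := Kc_nonneg (C0 := (1 + 2 / 5) / (2 / 5) ^ 2) (C1 := 4) (by norm_num) (by norm_num) 401
    positivity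
  intro β H Φ hE hΦ I
  have hb : (0 : ℝ) < 2 / 5 := by norm_num
  -- the upper sums
  obtain ⟨U, hU⟩ : ∃ U : ℕ → ℕ → ℝ, U = fun m I => ∑ j ∈ Finset.range (I - (m + 1)),
      ((j : ℝ) + 1) * (pq (2 / 5 : ℝ) (m + 1 + j))⁻¹
        * ‖Vd (1 / 2) (diagc (EE Φ (1 / 2)) m) m (m + 1 + j)‖ ^ 2 := ⟨_, rfl⟩
  have hup : ∀ M I, U (M + 1) I ≤ (1 / Real.pi ^ 2 * DS (2 / 5) M (I - (M + 1 + 1)))
      * Pg (2 / 5) (diagc (EE Φ (1 / 2)) (M + 1)) (M + 1) := by
    intro M I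
    have h1 := cs_upper hb (EE_symm hΦ (1 / 2) (M + 1)) (EE_first hΦ (1 / 2) M) (I - (M + 1 + 1))
    rw [hU]
    refine le_trans (le_of_eq ?_) h1
    apply Finset.sum_congr rfl
    intro j _
    have e : M + 1 + 1 + j = M + 1 + (j + 1) := by ring
    rw [e]
  apply closure_abs (N := U) (fun m => Pg_nonneg hb _ m) (by norm_num) (by norm_num)
    (by norm_num) (by norm_num)
  · -- the double sum
    intro I
    have h1 := double_fin (S := fun m i => ‖Vd (1 / 2) (diagc (EE Φ (1 / 2)) m) m i‖ ^ 2)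
      (lam := fun i => (pq (2 / 5 : ℝ) i)⁻¹) (κ := 1 ^ 2)
      (fun i => (inv_pos.mpr (pq_pos' hb i)).le)
      (fun i M => area_V (gLe_one hE) hE hΦ (1 / 2) i M) I
    have e1 : ∑ m ∈ Finset.range I, ∑ i ∈ Finset.range I, ((m - i : ℕ) : ℝ)
        * (pq (2 / 5 : ℝ) i)⁻¹ * ‖Vd (1 / 2) (diagc (EE Φ (1 / 2)) m) m i‖ ^ 2
        = ∑ m ∈ Finset.range I, Pg (2 / 5) (diagc (EE Φ (1 / 2)) m) m := by
      apply Finset.sum_congr rfl
      intro m hm
      rw [Finset.mem_range] at hm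
      unfold Pg
      have hsub : Finset.range m ⊆ Finset.range I := by
        intro i hi
        rw [Finset.mem_range] at hi ⊢
        omega
      rw [← Finset.sum_subset hsub]
      intro i _ hi
      rw [Finset.mem_range, not_lt] at hi
      have : m - i = 0 := by omega
      rw [this]; simp
    have e2 : ∑ m ∈ Finset.range I, ∑ i ∈ Finset.range I, ((i - m : ℕ) : ℝ)
        * (pq (2 / 5 : ℝ) i)⁻¹ * ‖Vd (1 / 2) (diagc (EE Φ (1 / 2)) m) m i‖ ^ 2
        = ∑ m ∈ Finset.range I, U m I := by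
      apply Finset.sum_congr rfl
      intro m _
      have h3 := upper_eq (fun i => (pq (2 / 5 : ℝ) i)⁻¹
        * ‖Vd (1 / 2) (diagc (EE Φ (1 / 2)) m) m i‖ ^ 2) m I
      rw [hU]
      simp only [← mul_assoc] at h3 ⊢
      exact h3
    rw [e1, e2, one_pow, one_mul] at h1
    exact h1
  · -- m = 0
    intro I
    rw [hU]
    exact zero_le hb (EE_zero hΦ (1 / 2)) (I - (0 + 1))
  · -- m ≥ 1
    intro m hm I
    obtain ⟨M, rfl⟩ : ∃ M, m = M + 1 := ⟨m - 1, by omega⟩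
    have h2 := DS_crude M (I - (M + 1 + 1))
    have hP := Pg_nonneg hb (diagc (EE Φ (1 / 2)) (M + 1)) (M + 1)
    exact (hup M I).trans (mul_le_mul_of_nonneg_right h2 hP)
  · intro m
    have : U m (m + 1) = 0 := by
      rw [hU]
      simp
    rw [this]
  · intro m hm hmm I
    obtain ⟨M, rfl⟩ : ∃ M, m = M + 1 := ⟨m - 1, by omega⟩
    have h2 := DS_eventually M (I - (M + 1 + 1)) (by omega)
    have hP := Pg_nonneg hb (diagc (EE Φ (1 / 2)) (M + 1)) (M + 1)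
    exact (hup M I).trans (mul_le_mul_of_nonneg_right h2 hP)

/-! ### the mean -/

theorem hasSum_pq_real (b : ℝ) {x : ℝ} (hx0 : 0 ≤ x) (hx : x < 1) :
    HasSum (fun n : ℕ => pq b n * x ^ n) ((1 - x) ^ (-b)) := by
  have h := Pool.Agent.Helper22.Half.hasSum_pq (b : ℂ) (x := (x : ℂ)) (by
    rw [Complex.norm_real, Real.norm_of_nonneg hx0]; exact hx)
  have e : (1 / (1 - (x : ℂ)) ^ (b : ℂ)) = (((1 - x) ^ (-b) : ℝ) : ℂ) := by
    rw [Real.rpow_neg (by linarith), one_div]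
    push_cast
    rw [Complex.ofReal_cpow (by linarith)]
    push_cast
    rfl
  rw [e] at h
  have e2 : (fun n : ℕ => pq (b : ℂ) n * (x : ℂ) ^ n)
      = fun n : ℕ => ((pq b n * x ^ n : ℝ) : ℂ) := by
    funext n; rw [pq_ofReal]; push_cast; rfl
  rw [e2] at h
  exact Complex.hasSum_ofReal.mp h

theorem pow_mul_pq_le {b : ℝ} (hb : 0 < b) {x : ℝ} (hx0 : 0 ≤ x) (hx : x < 1) (m : ℕ) :
    x ^ m * pq (b + 1) m ≤ (1 - x) ^ (-b) := by
  have h := hasSum_pq_real b hx0 hx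
  have h2 : ∑ i ∈ Finset.range (m + 1), pq b i * x ^ i ≤ (1 - x) ^ (-b) := by
    apply sum_le_hasSum _ _ h
    intro i _
    exact mul_nonneg (pq_pos' hb i).le (pow_nonneg hx0 i)
  refine le_trans ?_ h2
  have h3 := vander b 1 m
  simp only [pq_one, mul_one] at h3
  rw [← h3, Finset.mul_sum]
  apply Finset.sum_le_sum
  intro i hi
  rw [Finset.mem_range] at hi
  rw [mul_comm]
  apply mul_le_mul_of_nonneg_left _ (pq_pos' hb i).le
  exact pow_le_pow_of_le_one hx0 hx.le (by omega)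

theorem pq_three_shift {b : ℝ} (hb : 0 < b) {m : ℕ} (hm : 1 ≤ m) :
    pq (b + 3) (m - 1) ≤ m ^ 2 * pq (b + 1) m := by
  obtain ⟨n, rfl⟩ : ∃ n, m = n + 1 := ⟨m - 1, by omega⟩
  rw [Nat.add_sub_cancel]
  have h1 := pq_shift (b + 1) n
  have h2 := pq_add_one (b + 2) n
  have e1 : b + 1 + 1 = b + 2 := by ring
  have e2 : b + 2 + 1 = b + 3 := by ring
  rw [e1] at h1
  rw [e2] at h2
  have p1 := pq_pos' (by linarith : 0 < b + 3) n
  have p2 := pq_pos' (by linarith : 0 < b + 2) n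
  have p3 := pq_pos' (by linarith : 0 < b + 1) (n + 1)
  have hn : (0 : ℝ) ≤ n := Nat.cast_nonneg n
  push_cast
  have h3 : (b + 1) * (b + 2) * pq (b + 3) n = ((n : ℝ) + 1) * (b + 2 + n) * pq (b + 1) (n + 1) := by
    linear_combination (b + 1) * h2 - (b + 2 + n) * h1
  have h4 : (b + 1) * (b + 2) * pq (b + 3) n ≤ (b + 1) * (b + 2) * (((n : ℝ) + 1) ^ 2 * pq (b + 1) (n + 1)) := by
    rw [h3]
    have h5 : (b + 2 + n) ≤ (b + 1) * (b + 2) * ((n : ℝ) + 1) := by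
      have : (b + 2 + n) ≤ (b + 2) * ((n : ℝ) + 1) := by nlinarith
      have : (b + 2) * ((n : ℝ) + 1) ≤ (b + 1) * ((b + 2) * ((n : ℝ) + 1)) := by
        have : 0 ≤ (b + 2) * ((n : ℝ) + 1) := by positivity
        nlinarith
      linarith
    calc ((n : ℝ) + 1) * (b + 2 + n) * pq (b + 1) (n + 1)
        ≤ ((n : ℝ) + 1) * ((b + 1) * (b + 2) * ((n : ℝ) + 1)) * pq (b + 1) (n + 1) := by gcongr
      _ = _ := by ring
  exact le_of_mul_le_mul_left h4 (by positivity)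

/-- uniform bound of the mean -/
theorem mean_le : ∃ C : ℝ, 0 ≤ C ∧ ∀ (β H : ℂ → ℂ) (Φ : ℂ → ℂ → ℂ), Ext β → LogPhi β H Φ →
    DifferentiableOn ℂ H (ball 0 1) → ∀ r : ℝ, 0 ≤ r → r < 1 →
    ∫ θ in (-π)..π, ‖Complex.exp ((1 / 2) * H ((r : ℂ) * Complex.exp ((θ : ℂ) * Complex.I)))‖ ^ 2
      ≤ C * (1 - r ^ 2) ^ (-(2 / 5) : ℝ) := by
  obtain ⟨C, hC, hsum⟩ := sum_Pg_le
  refine ⟨2 * π * (1 + 5 * C), by positivity, ?_⟩
  intro β H Φ hE hΦ hH r hr0 hr1
  have hb : (0 : ℝ) < 2 / 5 := by norm_num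
  obtain ⟨x, hx⟩ : ∃ x, x = r ^ 2 := ⟨_, rfl⟩
  have hx0 : 0 ≤ x := by rw [hx]; positivity
  have hx1 : x < 1 := by rw [hx]; nlinarith
  have hfd : DifferentiableOn ℂ (fun z => Complex.exp ((1 / 2) * H z)) (ball 0 1) :=
    (hH.const_mul (1 / 2)).cexp
  have hpar := parseval_comb hfd 0 1 hr0 hr1
  simp only [zero_mul, zero_add, one_mul] at hpar
  -- termwise
  have hone : 1 ≤ (1 - x) ^ (-(2 / 5) : ℝ) :=
    Real.one_le_rpow_of_pos_of_le_one_of_nonpos (by linarith) (by linarith) (by norm_num)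
  have hterm : ∀ m : ℕ, ‖coeff (fun z => Complex.exp ((1 / 2) * H z)) m‖ ^ 2 * r ^ (2 * m)
      ≤ (if m = 0 then 1 else 0) * (1 - x) ^ (-(2 / 5) : ℝ)
        + 5 * Pg (2 / 5) (diagc (EE Φ (1 / 2)) m) m * (1 - x) ^ (-(2 / 5) : ℝ) := by
    intro m
    have hP := Pg_nonneg hb (diagc (EE Φ (1 / 2)) m) m
    by_cases hm : m = 0
    · subst hm
      rw [if_pos rfl]
      have hH0 : H 0 = 0 := by
        rw [← hΦ.diag 0 (mem_ball_self one_pos), hΦ.zero_right 0 (mem_ball_self one_pos)]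
      have e : ‖coeff (fun z => Complex.exp ((1 / 2) * H z)) 0‖ ^ 2 * r ^ (2 * 0) = 1 := by
        rw [Pool.Agent.Helper22.Marshall.coeff_zero, hH0]
        simp
      rw [e]
      have : 0 ≤ 5 * Pg (2 / 5) (diagc (EE Φ (1 / 2)) 0) 0 * (1 - x) ^ (-(2 / 5) : ℝ) := by positivity
      linarith
    · rw [if_neg hm, zero_mul, zero_add]
      have hm1 : 1 ≤ m := by omega
      have hm' : (0 : ℝ) < m := by exact_mod_cast (by omega : 0 < m)
      have h1 := cs_lower hb hm1 (EE_symm hΦ (1 / 2) m)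
      rw [EE_diag hΦ (1 / 2) m] at h1
      have h2 := pq_three_shift hb hm1
      have p1 := pq_pos' (by linarith : (0 : ℝ) < 2 / 5 + 1) m
      have p2 := pq_pos' (by linarith : (0 : ℝ) < 2 / 5 + 3) (m - 1)
      have h3 : (m : ℝ) ^ 2 * ‖coeff (fun z => Complex.exp ((1 / 2) * H z)) m‖ ^ 2
          ≤ (m : ℝ) ^ 2 * (5 * Pg (2 / 5) (diagc (EE Φ (1 / 2)) m) m * pq (2 / 5 + 1) m) := by
        refine h1.trans ?_
        calc 5 * pq (2 / 5 + 3) (m - 1) * Pg (2 / 5) (diagc (EE Φ (1 / 2)) m) m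
            ≤ 5 * (m ^ 2 * pq (2 / 5 + 1) m) * Pg (2 / 5) (diagc (EE Φ (1 / 2)) m) m := by gcongr
          _ = _ := by ring
      have h4 := le_of_mul_le_mul_left h3 (by positivity)
      have h5 := pow_mul_pq_le hb hx0 hx1 m
      have h6 : r ^ (2 * m) = x ^ m := by rw [hx, ← pow_mul]
      rw [h6]
      calc ‖coeff (fun z => Complex.exp ((1 / 2) * H z)) m‖ ^ 2 * x ^ m
          ≤ (5 * Pg (2 / 5) (diagc (EE Φ (1 / 2)) m) m * pq (2 / 5 + 1) m) * x ^ m := by gcongr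
        _ = 5 * Pg (2 / 5) (diagc (EE Φ (1 / 2)) m) m * (x ^ m * pq (2 / 5 + 1) m) := by ring
        _ ≤ 5 * Pg (2 / 5) (diagc (EE Φ (1 / 2)) m) m * (1 - x) ^ (-(2 / 5) : ℝ) := by gcongr
  have hpos : 0 < (1 - x) ^ (-(2 / 5) : ℝ) := by linarith
  have hsumle : (1 / (2 * π)) * ∫ θ in (-π)..π,
      ‖Complex.exp ((1 / 2) * H ((r : ℂ) * Complex.exp ((θ : ℂ) * Complex.I)))‖ ^ 2
      ≤ (1 + 5 * C) * (1 - x) ^ (-(2 / 5) : ℝ) := by
    refine hasSum_le_of_sum_le hpar (fun F => ?_)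
    obtain ⟨M, hM⟩ : ∃ M, F ⊆ Finset.range M := F.exists_nat_subset_range
    have hnn : ∀ m : ℕ, 0 ≤ ‖coeff (fun z => Complex.exp ((1 / 2) * H z)) m‖ ^ 2 * r ^ (2 * m) := by
      intro m; positivity
    calc ∑ m ∈ F, ‖coeff (fun z => Complex.exp ((1 / 2) * H z)) m‖ ^ 2 * r ^ (2 * m)
        ≤ ∑ m ∈ Finset.range M, ‖coeff (fun z => Complex.exp ((1 / 2) * H z)) m‖ ^ 2 * r ^ (2 * m) :=
          Finset.sum_le_sum_of_subset_of_nonneg hM (fun m _ _ => hnn m)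
      _ ≤ ∑ m ∈ Finset.range M, ((if m = 0 then 1 else 0) * (1 - x) ^ (-(2 / 5) : ℝ)
        + 5 * Pg (2 / 5) (diagc (EE Φ (1 / 2)) m) m * (1 - x) ^ (-(2 / 5) : ℝ)) :=
          Finset.sum_le_sum (fun m _ => hterm m)
      _ = (∑ m ∈ Finset.range M, (if m = 0 then (1 : ℝ) else 0)) * (1 - x) ^ (-(2 / 5) : ℝ)
        + 5 * (∑ m ∈ Finset.range M, Pg (2 / 5) (diagc (EE Φ (1 / 2)) m) m)
          * (1 - x) ^ (-(2 / 5) : ℝ) := by
          rw [Finset.sum_add_distrib, ← Finset.sum_mul, ← Finset.sum_mul, ← Finset.mul_sum]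
      _ ≤ 1 * (1 - x) ^ (-(2 / 5) : ℝ) + 5 * C * (1 - x) ^ (-(2 / 5) : ℝ) := by
          have h7 : ∑ m ∈ Finset.range M, (if m = 0 then (1 : ℝ) else 0) ≤ 1 := by
            cases M with
            | zero => simp
            | succ M =>
              rw [Finset.sum_range_succ']
              simp
          have h8 := hsum β H Φ hE hΦ M
          gcongr
      _ = _ := by ring
  have hpi := Real.pi_pos
  have h9 := mul_le_mul_of_nonneg_left hsumle (by positivity : 0 ≤ 2 * π)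
  rw [← mul_assoc, mul_one_div_cancel (by positivity), one_mul] at h9
  rw [← hx]
  linarith

end Pool.Agent.Helper86.CJ
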