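import Mathlib
import Pool.Agent.Helper24.Br.Inj
import Pool.Agent.Helper39.Area.Exterior
import Pool.Agent.Helper86.CJ.Growth

/-!
MP_16b0ee, project CJ: the mean of the derivative and the coefficients, in the exterior domain.
-/

set_option autoImplicit false

open MeasureTheory Set Metric Filter Topology
open scoped Real

namespace Pool.Agent.Helper86.CJ

open Pool.Agent.Helper39.Area (Ext phi toDisc)
open Pool.Agent.Helper22.Marshall (coeff SepHol LogPhi dcoeff GLe coeff_congr exists_logPhi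
  gLe_one coeff_mul coeff_eq_of_hasSum hasSum_coeff_deriv parseval_comb)
open Pool.Agent.Helper24.Br (deriv_ne_of_inj exists_log_ball)

/-- the data in the unit disc of a map of the class -/
theorem disc_data {ψ : ℂ → ℂ} {c : ℂ}
    (hψ : DifferentiableOn ℂ ψ {z : ℂ | 1 < ‖z‖})
    (hinj : Set.InjOn ψ {z : ℂ | 1 < ‖z‖})
    (hc : Tendsto (fun z => ψ z - z) (Bornology.cobounded ℂ) (𝓝 c)) :
    ∃ (H : ℂ → ℂ) (Φ : ℂ → ℂ → ℂ), Ext (toDisc c (fun z => ψ z - z)) ∧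
      LogPhi (toDisc c (fun z => ψ z - z)) H Φ ∧ DifferentiableOn ℂ H (ball 0 1) ∧
      (∀ ζ ∈ ball (0 : ℂ) 1, Complex.exp (H ζ)
        = 1 - ζ ^ 2 * deriv (toDisc c (fun z => ψ z - z)) ζ) ∧
      ∀ ζ ∈ ball (0 : ℂ) 1, ζ ≠ 0 → Complex.exp (H ζ) = deriv ψ ζ⁻¹ := by
  have hne : ∀ z : ℂ, 1 < ‖z‖ → deriv ψ z ≠ 0 := fun z hz =>
    deriv_ne_of_inj Pool.Agent.Helper39.Area.isOpen_ext hψ hinj hz
  have hexp : ∀ z : ℂ, 1 < ‖z‖ → Complex.exp ((fun z => Complex.log (deriv ψ z)) z) =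
      deriv ψ z := fun z hz => Complex.exp_log (hne z hz)
  obtain ⟨hE, hex⟩ := Pool.Agent.Helper39.Area.ext_data hψ hinj hc hexp
  have hq : DifferentiableOn ℂ (fun ζ => 1 - ζ ^ 2 * deriv (toDisc c (fun z => ψ z - z)) ζ)
      (ball 0 1) := by
    have h1 := hE.diff.deriv isOpen_ball
    have h2 : DifferentiableOn ℂ (fun ζ : ℂ => ζ ^ 2) (ball 0 1) := by fun_prop
    exact (differentiableOn_const (1 : ℂ)).sub (h2.mul h1)
  obtain ⟨H, hH, hH0, hHe⟩ := exists_log_ball hq (fun z hz => hE.ne z hz) (by simp)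
  obtain ⟨Φ, hΦ⟩ := exists_logPhi hE hH.continuousOn hH0 hHe
  refine ⟨H, Φ, hE, hΦ, hH, hHe, ?_⟩
  intro ζ hζ h0
  rw [hHe ζ hζ, ← hex ζ hζ]
  simp only [toDisc]
  rw [if_neg h0]
  exact Complex.exp_log (hne _ (Pool.Agent.Helper39.Area.inv_mem hζ h0))

/-- the circle integral in both coordinates -/
theorem transfer_gen (F : ℂ → ℝ) (h : ℂ → ℂ) {R : ℝ} (hR : 1 < R) :
    (∫ θ in (0:ℝ)..(2 * π), F (h ((R : ℂ) * Complex.exp ((θ : ℂ) * Complex.I)))) =
      ∫ θ in (0:ℝ)..(2 * π),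
        F (toDisc 0 h (((R⁻¹ : ℝ) : ℂ) * Complex.exp ((θ : ℂ) * Complex.I))) := by
  have hR0 : R ≠ 0 := by linarith
  obtain ⟨k, hk⟩ : ∃ k : ℝ → ℝ, k = fun (θ : ℝ) =>
    F (toDisc 0 h (((R⁻¹ : ℝ) : ℂ) * Complex.exp ((θ : ℂ) * Complex.I))) := ⟨_, rfl⟩
  have h1 : ∀ θ : ℝ, F (h ((R : ℂ) * Complex.exp ((θ : ℂ) * Complex.I))) = k (-θ) := by
    intro θ
    simp only [hk]
    have hne : ((R⁻¹ : ℝ) : ℂ) * Complex.exp (((-θ : ℝ) : ℂ) * Complex.I) ≠ 0 := by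
      apply mul_ne_zero _ (Complex.exp_ne_zero _)
      exact_mod_cast inv_ne_zero hR0
    have h2 : (((R⁻¹ : ℝ) : ℂ) * Complex.exp (((-θ : ℝ) : ℂ) * Complex.I))⁻¹ =
        (R : ℂ) * Complex.exp ((θ : ℂ) * Complex.I) := by
      rw [mul_inv, ← Complex.exp_neg]
      push_cast
      rw [inv_inv]
      congr 2
      ring
    simp only [toDisc]
    rw [if_neg hne, h2]
  simp_rw [h1]
  rw [intervalIntegral.integral_comp_neg (fun θ => k θ)]
  have hper : Function.Periodic k (2 * π) := by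
    intro θ
    simp only [hk]
    have : Complex.exp (((θ + 2 * π : ℝ) : ℂ) * Complex.I) = Complex.exp ((θ : ℂ) * Complex.I) := by
      push_cast
      rw [add_mul, Complex.exp_add, Complex.exp_two_pi_mul_I, mul_one]
    rw [this]
  have h2 := hper.intervalIntegral_add_eq (-(2 * π)) 0
  have e1 : -(2 * π) + 2 * π = (0:ℝ) := by ring
  have e2 : (0:ℝ) + 2 * π = 2 * π := by ring
  rw [e1, e2] at h2
  rw [neg_zero, h2, hk]

theorem periodic_shift {f : ℂ → ℝ} (r : ℝ) :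
    ∫ θ in (0:ℝ)..(2 * π), f ((r : ℂ) * Complex.exp ((θ : ℂ) * Complex.I))
      = ∫ θ in (-π)..π, f ((r : ℂ) * Complex.exp ((θ : ℂ) * Complex.I)) := by
  have hper : Function.Periodic (fun θ : ℝ => f ((r : ℂ) * Complex.exp ((θ : ℂ) * Complex.I)))
      (2 * π) := by
    intro θ
    have : Complex.exp (((θ + 2 * π : ℝ) : ℂ) * Complex.I) = Complex.exp ((θ : ℂ) * Complex.I) := by
      push_cast
      rw [add_mul, Complex.exp_add, Complex.exp_two_pi_mul_I, mul_one]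
    simp only [this]
  have h2 := hper.intervalIntegral_add_eq 0 (-π)
  have e1 : (0:ℝ) + 2 * π = 2 * π := by ring
  have e2 : -π + 2 * π = π := by ring
  rw [e1, e2] at h2
  exact h2

/-- the bound in the exterior domain from the bound in the disc -/
theorem ext_of_disc {b C : ℝ} {ψ H : ℂ → ℂ}
    (hexp : ∀ ζ ∈ ball (0 : ℂ) 1, ζ ≠ 0 → Complex.exp (H ζ) = deriv ψ ζ⁻¹)
    (hm : ∀ r : ℝ, 0 ≤ r → r < 1 →
      ∫ θ in (-π)..π, ‖Complex.exp ((1 / 2) * H ((r : ℂ) * Complex.exp ((θ : ℂ) * Complex.I)))‖ ^ 2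
        ≤ C * (1 - r ^ 2) ^ (-b)) {R : ℝ} (hR : 1 < R) :
    (1 / (2 * π)) * ∫ θ in (0:ℝ)..(2 * π),
      ‖deriv ψ ((R : ℂ) * Complex.exp ((θ : ℂ) * Complex.I))‖
      ≤ (1 / (2 * π) * C) * (R ^ 2 / (R ^ 2 - 1)) ^ b := by
  have hR0 : 0 < R⁻¹ := by positivity
  have hR1 : R⁻¹ < 1 := inv_lt_one_of_one_lt₀ hR
  have h1 := hm R⁻¹ hR0.le hR1
  rw [transfer_gen (fun w => ‖w‖) (deriv ψ) hR]
  have e1 : ∀ θ : ℝ, ‖toDisc 0 (deriv ψ) (((R⁻¹ : ℝ) : ℂ) *
      Complex.exp ((θ : ℂ) * Complex.I))‖ =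
      ‖Complex.exp ((1 / 2) * H (((R⁻¹ : ℝ) : ℂ) * Complex.exp ((θ : ℂ) * Complex.I)))‖ ^ 2 := by
    intro θ
    have hne : ((R⁻¹ : ℝ) : ℂ) * Complex.exp ((θ : ℂ) * Complex.I) ≠ 0 := by
      apply mul_ne_zero _ (Complex.exp_ne_zero _)
      exact_mod_cast hR0.ne'
    have hmem : ((R⁻¹ : ℝ) : ℂ) * Complex.exp ((θ : ℂ) * Complex.I) ∈ ball (0 : ℂ) 1 := by
      rw [mem_ball_zero_iff, norm_mul, Complex.norm_exp_ofReal_mul_I, mul_one, Complex.norm_real,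
        Real.norm_of_nonneg hR0.le]
      exact hR1
    simp only [toDisc]
    rw [if_neg hne, ← hexp _ hmem hne, ← norm_pow, ← Complex.exp_nat_mul]
    congr 2
    push_cast
    ring
  simp_rw [e1]
  rw [periodic_shift (f := fun ζ => ‖Complex.exp ((1 / 2) * H ζ)‖ ^ 2) R⁻¹, mul_assoc]
  apply mul_le_mul_of_nonneg_left _ (by positivity)
  refine h1.trans (le_of_eq ?_)
  congr 1
  have hx : 0 < 1 - R⁻¹ ^ 2 := by nlinarith
  have e3 : R ^ 2 / (R ^ 2 - 1) = (1 - R⁻¹ ^ 2)⁻¹ := by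
    have h4 : R ^ 2 - 1 ≠ 0 := by nlinarith
    have h5 : R ≠ 0 := by linarith
    have h6 : 1 - R⁻¹ ^ 2 = (R ^ 2 - 1) / R ^ 2 := by
      field_simp
    rw [h6, inv_div]
  rw [e3, Real.rpow_neg hx.le, Real.inv_rpow hx.le]

/-- the coefficients of the square -/
theorem coeff_sq_le {g : ℂ → ℂ} (hg : DifferentiableOn ℂ g (ball 0 1)) (N : ℕ) :
    ‖coeff (fun z => g z * g z) N‖ ≤ ∑ i ∈ Finset.range (N + 1), ‖coeff g i‖ ^ 2 := by
  have ha : AnalyticAt ℂ g 0 := hg.analyticAt (ball_mem_nhds 0 one_pos)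
  rw [coeff_mul ha ha]
  refine (norm_sum_le _ _).trans ?_
  have h1 : ∑ i ∈ Finset.range (N + 1), ‖coeff g i * coeff g (N - i)‖
      ≤ ∑ i ∈ Finset.range (N + 1), (1 / 2 * ‖coeff g i‖ ^ 2 + 1 / 2 * ‖coeff g (N - i)‖ ^ 2) := by
    apply Finset.sum_le_sum
    intro i _
    rw [norm_mul]
    nlinarith [sq_nonneg (‖coeff g i‖ - ‖coeff g (N - i)‖)]
  refine h1.trans (le_of_eq ?_)
  rw [Finset.sum_add_distrib, ← Finset.mul_sum, ← Finset.mul_sum]
  have h2 : ∑ i ∈ Finset.range (N + 1), ‖coeff g (N - i)‖ ^ 2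
      = ∑ i ∈ Finset.range (N + 1), ‖coeff g i‖ ^ 2 := by
    have := Finset.sum_range_reflect (fun i => ‖coeff g i‖ ^ 2) (N + 1)
    simpa using this
  rw [h2]
  ring

/-- the coefficients of the derivative -/
theorem coeff_of_deriv {β q : ℂ → ℂ} (hβ : DifferentiableOn ℂ β (ball 0 1))
    (hq : ∀ ζ ∈ ball (0 : ℂ) 1, q ζ = 1 - ζ ^ 2 * deriv β ζ) (n : ℕ) :
    coeff q (n + 1) = -((n : ℂ) * coeff β n) := by
  obtain ⟨a, ha⟩ : ∃ a : ℕ → ℂ, a = fun k => Nat.casesOn k 1 (fun k => -((k : ℂ) * coeff β k)) :=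
    ⟨_, rfl⟩
  have ha1 : a (n + 1) = -((n : ℂ) * coeff β n) := by rw [ha]
  have ha0 : a 0 = 1 := congrFun ha 0
  rw [← ha1]
  apply coeff_eq_of_hasSum one_pos
  intro z hz
  have h1 := (hasSum_coeff_deriv hβ hz).mul_left (-z)
  rw [← hasSum_nat_add_iff' 1]
  have e1 : q z - ∑ i ∈ Finset.range 1, a i * z ^ i = -z * (z * deriv β z) := by
    rw [hq z (mem_ball_zero_iff.mpr hz), Finset.sum_range_one, ha0]
    ring
  rw [e1]
  refine h1.congr_fun ?_
  intro k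
  rw [ha]
  simp only
  ring

theorem coeff_beta {ψ : ℂ → ℂ} {c : ℂ} (hd : DifferentiableOn ℂ (toDisc c (fun z => ψ z - z)) (ball 0 1))
    {b : ℕ → ℂ} (hb : ∀ z : ℂ, 1 < ‖z‖ → HasSum (fun n => b n * (z⁻¹) ^ n) (ψ z - z)) (n : ℕ) :
    coeff (toDisc c (fun z => ψ z - z)) n = b n := by
  obtain ⟨β, hβ⟩ : ∃ β, β = toDisc c (fun z => ψ z - z) := ⟨_, rfl⟩
  rw [← hβ] at hd ⊢
  obtain ⟨f, hf⟩ : ∃ f : ℂ → ℂ, f = fun ζ => if ζ = 0 then b 0 else β ζ := ⟨_, rfl⟩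
  have hsum : ∀ z : ℂ, ‖z‖ < 1 → HasSum (fun n => b n * z ^ n) (f z) := by
    intro z hz
    by_cases h0 : z = 0
    · subst h0
      rw [hf]
      simp only [if_true]
      have h1 := hasSum_single (f := fun n : ℕ => b n * (0 : ℂ) ^ n) 0 (fun n hn => by
        simp [hn])
      simpa using h1
    · have h1 := hb z⁻¹ (Pool.Agent.Helper39.Area.inv_mem (mem_ball_zero_iff.mpr hz) h0)
      rw [inv_inv] at h1
      rw [hf, hβ]
      simp only [toDisc]
      rw [if_neg h0, if_neg h0]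
      exact h1
  have hc := coeff_eq_of_hasSum one_pos hsum n
  rw [← hc]
  apply coeff_congr
  have hp : HasFPowerSeriesAt f (FormalMultilinearSeries.ofScalars ℂ b) 0 := by
    rw [hasFPowerSeriesAt_iff]
    filter_upwards [ball_mem_nhds (0 : ℂ) one_pos] with z hz
    rw [mem_ball_zero_iff] at hz
    have := hsum z hz
    simp only [zero_add]
    refine this.congr_fun ?_
    intro k
    simp [FormalMultilinearSeries.coeff_ofScalars, mul_comm]
  have h1 : ContinuousAt f 0 := hp.continuousAt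
  have h2 : ContinuousAt β 0 := (hd.differentiableAt (ball_mem_nhds 0 one_pos)).continuousAt
  have h3 : f =ᶠ[𝓝[≠] 0] β := by
    filter_upwards [self_mem_nhdsWithin] with z hz
    have hz' : z ≠ 0 := hz
    rw [hf]
    simp only
    rw [if_neg hz']
  exact ((h1.eventuallyEq_nhds_iff_eventuallyEq_nhdsNE h2).mp h3).symm

theorem final : ∃ C : ℝ, 0 < C ∧ ∀ ψ : ℂ → ℂ,
    DifferentiableOn ℂ ψ {z : ℂ | 1 < ‖z‖} →
    Set.InjOn ψ {z : ℂ | 1 < ‖z‖} →
    (∃ c : ℂ, Tendsto (fun z => ψ z - z) (Bornology.cobounded ℂ) (𝓝 c)) →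
    (∀ R : ℝ, 1 < R →
      (1 / (2 * π)) * ∫ θ in (0:ℝ)..(2 * π),
        ‖deriv ψ ((R : ℂ) * Complex.exp ((θ : ℂ) * Complex.I))‖
        ≤ C * (R ^ 2 / (R ^ 2 - 1)) ^ (2 / 5 : ℝ)) ∧
    ∀ b : ℕ → ℂ, (∀ z : ℂ, 1 < ‖z‖ → HasSum (fun n => b n * (z⁻¹) ^ n) (ψ z - z)) →
      ∀ n : ℕ, 1 ≤ n → ‖b n‖ ≤ C * (n : ℝ) ^ (-(3 / 5) : ℝ) := by
  obtain ⟨C, hC, hm⟩ := mean_le
  have hpi := Real.pi_pos
  obtain ⟨A, hA⟩ : ∃ A, A = 1 / (2 * π) * C := ⟨_, rfl⟩
  have hA0 : 0 ≤ A := by rw [hA]; positivity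
  refine ⟨9 * A + 1, by positivity, ?_⟩
  intro ψ hψ hinj hc
  obtain ⟨c, hc⟩ := hc
  obtain ⟨H, Φ, hE, hΦ, hH, hHe, hexp⟩ := disc_data hψ hinj hc
  have hmean := hm _ H Φ hE hΦ hH
  constructor
  · intro R hR
    refine (ext_of_disc (b := 2 / 5) hexp hmean hR).trans ?_
    rw [← hA]
    have hX : 0 < R ^ 2 / (R ^ 2 - 1) := by
      have : 0 < R ^ 2 - 1 := by nlinarith
      positivity
    have := Real.rpow_pos_of_pos hX (2 / 5)
    gcongr
    linarith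
  · intro b hb n hn
    have hn' : (1 : ℝ) ≤ n := by exact_mod_cast hn
    obtain ⟨g, hg⟩ : ∃ g : ℂ → ℂ, g = fun z => Complex.exp ((1 / 2) * H z) := ⟨_, rfl⟩
    have hgd : DifferentiableOn ℂ g (ball 0 1) := by
      rw [hg]
      exact (hH.const_mul (1 / 2)).cexp
    have hgg : ∀ z, g z * g z = Complex.exp (H z) := by
      intro z
      rw [hg]
      simp only
      rw [← Complex.exp_add]
      congr 1
      ring
    have h1 := coeff_sq_le hgd (n + 1)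
    have h2 := coeff_of_deriv (q := fun z => g z * g z) hE.diff
      (fun ζ hζ => by rw [hgg]; exact hHe ζ hζ) n
    rw [h2, coeff_beta hE.diff hb, norm_neg, norm_mul, Complex.norm_natCast] at h1
    -- the radius
    obtain ⟨N, hN⟩ : ∃ N : ℝ, N = n + 1 := ⟨_, rfl⟩
    have hN2 : 2 ≤ N := by rw [hN]; linarith
    obtain ⟨x, hx⟩ : ∃ x : ℝ, x = N / (N + 1) := ⟨_, rfl⟩
    have hx0 : 0 < x := by rw [hx]; positivity
    have hx1 : x < 1 := by
      rw [hx, div_lt_one (by linarith)]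
      linarith
    have hsx : Real.sqrt x ^ 2 = x := Real.sq_sqrt hx0.le
    have hs1 : Real.sqrt x < 1 := by
      rw [Real.sqrt_lt' one_pos]
      linarith
    have hpar := parseval_comb hgd 0 1 (Real.sqrt_nonneg x) hs1
    simp only [zero_mul, zero_add, one_mul] at hpar
    have h3 := hmean (Real.sqrt x) (Real.sqrt_nonneg x) hs1
    rw [hsx] at h3
    have h4 : ∑ i ∈ Finset.range (n + 1 + 1), ‖coeff g i‖ ^ 2 * Real.sqrt x ^ (2 * i)
        ≤ A * (1 - x) ^ (-(2 / 5) : ℝ) := by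
      refine (sum_le_hasSum _ (fun i _ => by positivity) hpar).trans ?_
      rw [hA, mul_assoc, hg]
      apply mul_le_mul_of_nonneg_left h3 (by positivity)
    have h5 : x ^ (n + 1) * ∑ i ∈ Finset.range (n + 1 + 1), ‖coeff g i‖ ^ 2
        ≤ ∑ i ∈ Finset.range (n + 1 + 1), ‖coeff g i‖ ^ 2 * Real.sqrt x ^ (2 * i) := by
      rw [Finset.mul_sum]
      apply Finset.sum_le_sum
      intro i hi
      rw [Finset.mem_range] at hi
      rw [mul_comm, pow_mul, hsx]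
      apply mul_le_mul_of_nonneg_left _ (by positivity)
      exact pow_le_pow_of_le_one hx0.le hx1.le (by omega)
    have h6 : 1 ≤ 3 * x ^ (n + 1) := by
      have e1 : x ^ (n + 1) = ((1 + 1 / N) ^ (n + 1))⁻¹ := by
        rw [← inv_pow]
        congr 1
        rw [hx]
        have : N ≠ 0 := by linarith
        have : N + 1 ≠ 0 := by linarith
        field_simp
      have e2 : (1 + 1 / N) ^ (n + 1) ≤ 3 := by
        have e3 : (1 + 1 / N) ≤ Real.exp (1 / N) := by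
          have := Real.add_one_le_exp (1 / N)
          linarith
        calc (1 + 1 / N) ^ (n + 1) ≤ Real.exp (1 / N) ^ (n + 1) := by gcongr
          _ = Real.exp 1 := by
              rw [← Real.exp_nat_mul]
              congr 1
              push_cast
              rw [← hN]
              have : N ≠ 0 := by linarith
              field_simp
          _ ≤ 3 := by
              have := Real.exp_one_lt_d9
              linarith
      rw [e1]
      have e4 : 0 < (1 + 1 / N) ^ (n + 1) := by positivity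
      rw [← div_eq_mul_inv, le_div_iff₀ e4]
      linarith
    have h7 : (1 - x) ^ (-(2 / 5) : ℝ) ≤ 3 * (n : ℝ) ^ (2 / 5 : ℝ) := by
      have e1 : 1 - x = (N + 1)⁻¹ := by
        rw [hx]
        have : N + 1 ≠ 0 := by linarith
        field_simp
        ring
      rw [e1, Real.rpow_neg (by positivity), Real.inv_rpow (by positivity), inv_inv]
      have e2 : N + 1 ≤ 3 * n := by rw [hN]; linarith
      calc (N + 1) ^ (2 / 5 : ℝ) ≤ (3 * (n : ℝ)) ^ (2 / 5 : ℝ) := by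
            apply Real.rpow_le_rpow (by linarith) e2 (by norm_num)
        _ = 3 ^ (2 / 5 : ℝ) * (n : ℝ) ^ (2 / 5 : ℝ) := by
            rw [Real.mul_rpow (by norm_num) (by linarith)]
        _ ≤ 3 * (n : ℝ) ^ (2 / 5 : ℝ) := by
            have e3 : (3 : ℝ) ^ (2 / 5 : ℝ) ≤ 3 ^ (1 : ℝ) :=
              Real.rpow_le_rpow_of_exponent_le (by norm_num) (by norm_num)
            rw [Real.rpow_one] at e3
            have e4 : 0 ≤ (n : ℝ) ^ (2 / 5 : ℝ) := by positivity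
            gcongr
    have hS0 : 0 ≤ ∑ i ∈ Finset.range (n + 1 + 1), ‖coeff g i‖ ^ 2 := by positivity
    have h8 : (n : ℝ) * ‖b n‖ ≤ 9 * A * (n : ℝ) ^ (2 / 5 : ℝ) := by
      calc (n : ℝ) * ‖b n‖ ≤ ∑ i ∈ Finset.range (n + 1 + 1), ‖coeff g i‖ ^ 2 := h1
        _ ≤ 3 * x ^ (n + 1) * ∑ i ∈ Finset.range (n + 1 + 1), ‖coeff g i‖ ^ 2 := by nlinarith
        _ = 3 * (x ^ (n + 1) * ∑ i ∈ Finset.range (n + 1 + 1), ‖coeff g i‖ ^ 2) := by ring
        _ ≤ 3 * (A * (1 - x) ^ (-(2 / 5) : ℝ)) := by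
            apply mul_le_mul_of_nonneg_left (h5.trans h4) (by norm_num)
        _ ≤ 3 * (A * (3 * (n : ℝ) ^ (2 / 5 : ℝ))) := by gcongr
        _ = _ := by ring
    have hn0 : (0 : ℝ) < n := by linarith
    have h9 : (n : ℝ) ^ (2 / 5 : ℝ) = n * (n : ℝ) ^ (-(3 / 5) : ℝ) := by
      have e1 : (2 / 5 : ℝ) = 1 + -(3 / 5) := by norm_num
      rw [e1, Real.rpow_add hn0, Real.rpow_one]
    rw [h9] at h8
    have h10 : (n : ℝ) * ‖b n‖ ≤ n * (9 * A * (n : ℝ) ^ (-(3 / 5) : ℝ)) := by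
      linarith
    have h11 := le_of_mul_le_mul_left h10 hn0
    have h12 : 0 ≤ (n : ℝ) ^ (-(3 / 5) : ℝ) := by positivity
    linarith

end Pool.Agent.Helper86.CJ
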